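import Mathlib
import Pool.Agent.H11.FM.Fam

/-!
# One skew-symmetric matrix computes the Selmer groups of a whole family

Let `K = ℚ(√-d)`, where `d` is a prime number that is `7` modulo `16`, or the product of a prime
number that is `5` modulo `8` and of a prime number that is `3` modulo `8`; the prime `2` splits in
`K`, `v` and `v̄` are the places of `K` above `2` and `c` is a complex conjugation. Let `A` be a
complete Noetherian local ring with finite residue field of characteristic two (a domain or not) and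
let `ρ : G_K → GL_n(A)` be a FAMILY of representations: continuous, residually unipotent, unramified
outside `2`, with a symmetric matrix `J` over `A` such that

`J(ρ(σ) x, ρ(c σ c) y) = χ(σ) J(x, y)`, `χ` the `2`-adic cyclotomic character.

Let `l 0, …, l (k - 1)` be continuous cocycles of the decomposition group of `v` with values in `A^n`:
a family of local conditions at `v`. The condition at `v̄` is the orthogonal complement.

Theorem. There is ONE matrix `C` with `k` rows and columns and entries in `A`, `Cᵀ = -C`, which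
computes the Selmer groups of all members of the family:

1. For every continuous homomorphism `φ : A → B` to a Noetherian local ring with finite residue field
   (for example `B = A / 𝔪^j`, the ring of integers of a `2`-adic field, or an irreducible component
   of the family) and every `u ∈ B^k`, `w ∈ B^n` there is exactly one cocycle `z` of `G_K` with values
   in `V_φ = B^n`, unramified outside `2`, whose restriction to the decomposition group of `v` is
   `∑ u_i φ(l_i)` plus the coboundary of `w`, and `z` satisfies the condition at `v̄` if and only if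
   `φ(C) u = 0`. So the Selmer group of `V_φ` is the kernel of `φ(C)` on the local conditions.
2. If `B` is a domain with fraction field `F` and the `φ(l_i)` are independent in `H¹(K_v, F^n)`, then
   the Selmer group of `V_φ ⊗ F` has the dimension `r = k - rank φ(C)`. It is zero if and only if
   `φ(det C) ≠ 0`, and `k - r` is even if `2 ≠ 0` in `B`.

So the dimension of the Selmer group is upper semicontinuous on the family and its parity is constant;
if `k` is odd no member has a trivial Selmer group; if `k` is even and one member has a trivial Selmer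
group, then the members with a non-trivial Selmer group are exactly the zeros of the function
`det C ∈ A`, which is not zero. This applies to the anticyclotomic twists of a representation
(`A = O[[T]]`) and to all families of conjugate self-dual representations.

## Relation with Q1

Let `π` be as in the problem, unramified outside `2`, with residually unipotent `2`-adic realization
`V` (over `K` as above). With `L = H¹_f(K_v, V)` the Selmer group is `H¹_f(K, V)` and
`ε(π) = (-1) ^ dim L`. The theorem describes `H¹_f(K, V_φ)` for all the automorphic points `φ` of a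
family on which `dim L = k` and `L` is spanned by the values of `k` families of local classes: if
`ε = -1` at one automorphic point then `H¹_f ≠ 0` at all points, and if `ε = 1` and `H¹_f` is zero at
one point then the points with `H¹_f ≠ 0` lie on the divisor `det C = 0`. (These remarks use published
theorems and are not a part of the formal proof.)

## The proof

Let `G` be the Galois group of the maximal `2`-extension of `K` unramified outside `2`. The library
contains: every local cocycle extends to `G`; a two-cocycle of `G` is trivial if it is trivial at `v`;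
`dim H²(G, 𝔽_2) = 1`; `c` acts trivially on `H²(G, ℤ_2(1))`. Here it is shown that `H²(G, A(1))` is
free of rank one over `A` for EVERY coefficient ring `A` as above, with a generator `z₀` which comes
from `ℤ_2` (the cup product of a Kummer cocycle and of the logarithm of the cyclotomic character): so
`x_i ∪ x_j^c = C_ij z₀` for the extensions `x_i` of the `l_i`, the matrix is skew-symmetric because
`z₀^c = z₀` and the cup product is anticommutative, and everything commutes with the base change `φ`.
-/

set_option autoImplicit false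

namespace Pool.Agent.Results.MP_b4b3cb_nt.SkewMatrixOfFamily

open Matrix IsLocalRing

/-- An algebraic closure of `ℚ`. -/
abbrev QBar : Type := AlgebraicClosure ℚ

/-- The field `ℚ(s)`. It is `ℚ(√-d)` if `s² = -d`. -/
noncomputable abbrev K (s : QBar) : IntermediateField ℚ QBar := IntermediateField.adjoin ℚ {s}

/-- The absolute Galois group of `ℚ(s)`. -/
def Gal (s : QBar) : Type := QBar ≃ₐ[K s] QBar

/-- its group structure -/
noncomputable instance instGroupGal (s : QBar) : Group (Gal s) := AlgEquiv.aut (R := K s) (A₁ := QBar)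

/-- its Krull topology -/
noncomputable instance instTopGal (s : QBar) : TopologicalSpace (Gal s) := krullTopology (K s) QBar

/-- The action of the Galois group on `ℚ̄`. -/
noncomputable def app {s : QBar} (σ : Gal s) (x : QBar) : QBar := (show QBar ≃ₐ[K s] QBar from σ) x

/-- The class of the numbers `d`: the primes `7 mod 16`, and the products of a prime `5 mod 8` and of
a prime `3 mod 8`. -/
def InClass (d : ℕ) : Prop :=
  (d.Prime ∧ d % 16 = 7) ∨ ∃ p q : ℕ, p.Prime ∧ q.Prime ∧ p % 8 = 5 ∧ q % 8 = 3 ∧ d = p * q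

/-- Embeddings of `ℚ̄` into the algebraic closure of `ℚ_p`. Each of them gives a place above `p` of all
subfields of `ℚ̄`. -/
abbrev Emb (p : ℕ) [Fact p.Prime] : Type := QBar →ₐ[ℚ] PadicAlgCl p

/-- The decomposition group of the place given by the embedding `ι` of `ℚ̄`. -/
def Dec {s : QBar} {p : ℕ} [Fact p.Prime] (ι : Emb p) : Subgroup (Gal s) where
  carrier := {σ | ∃ τ : PadicAlgCl p ≃ₐ[ℚ_[p]] PadicAlgCl p, ∀ x, τ (ι x) = ι (app σ x)}
  mul_mem' := by
    rintro σ σ' ⟨τ, h⟩ ⟨τ', h'⟩
    refine ⟨τ * τ', fun x => ?_⟩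
    rw [AlgEquiv.mul_apply, h', h]
    rfl
  one_mem' := ⟨1, fun _ => rfl⟩
  inv_mem' := by
    rintro σ ⟨τ, h⟩
    refine ⟨τ⁻¹, fun x => τ.injective ?_⟩
    rw [h]
    have h1 : app σ (app σ⁻¹ x) = x := AlgEquiv.apply_symm_apply (show QBar ≃ₐ[K s] QBar from σ) x
    rw [h1]
    exact AlgEquiv.apply_symm_apply τ (ι x)

/-- Its inertia group: the automorphisms which are trivial on the residue field. -/
def Inr {s : QBar} {p : ℕ} [Fact p.Prime] (ι : Emb p) : Set (Gal s) :=
  {σ | ∃ τ : PadicAlgCl p ≃ₐ[ℚ_[p]] PadicAlgCl p, (∀ x, τ (ι x) = ι (app σ x)) ∧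
    ∀ z : PadicAlgCl p, ‖z‖ ≤ 1 → ‖τ z - z‖ < 1}

/-- `c` is the complex conjugation of an embedding of `ℚ̄` into `ℂ`. -/
def IsConjugation (c : QBar ≃ₐ[ℚ] QBar) : Prop :=
  ∃ j : QBar →+* ℂ, ∀ x, j (c x) = (starRingEnd ℂ) (j x)

/-- `cj` is the conjugation by `c` on the Galois group: `cj σ = c σ c`. -/
def IsConjBy {s : QBar} (c : QBar ≃ₐ[ℚ] QBar) (cj : Gal s → Gal s) : Prop :=
  ∀ σ x, app (cj σ) x = c (app σ (c x))

/-- The `2`-adic cyclotomic character. -/
noncomputable def cyc {s : QBar} (σ : Gal s) : ℤ_[2] :=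
  (cyclotomicCharacter QBar 2 (show QBar ≃ₐ[K s] QBar from σ).toRingEquiv : ℤ_[2]ˣ)

/-! ### Coefficients in a ring `A` -/

section ring

variable {s : QBar} {A : Type} [CommRing A] {n : ℕ}

/-- The representation `ρ` is continuous, residually unipotent and unramified outside `2`. -/
structure Admissible [IsLocalRing A] [TopologicalSpace A] (ρ : Gal s →* GL (Fin n) A) : Prop where
  cont : ∀ i j, Continuous fun σ => (ρ σ : Matrix (Fin n) (Fin n) A) i j
  unipotent : ∀ σ, ∃ m : ℕ, ∀ i j,
    (((ρ σ : Matrix (Fin n) (Fin n) A) - 1) ^ m) i j ∈ maximalIdeal A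
  unramified : ∀ (p : ℕ) [Fact p.Prime] (ι : Emb p), p ≠ 2 →
    ∀ σ ∈ (Inr ι : Set (Gal s)), ρ σ = 1

/-- `J` is a symmetric pairing of `A ^ n` and its conjugate with values in `A(1)`:
`J(σ x, (c σ c) y) = χ(σ) J(x, y)`. -/
structure Polarized [Algebra ℤ_[2] A] (cj : Gal s → Gal s) (ρ : Gal s →* GL (Fin n) A)
    (J : Matrix (Fin n) (Fin n) A) : Prop where
  symm : J.IsSymm
  inv : ∀ (σ : Gal s) (x y : Fin n → A),
    ((ρ σ : Matrix (Fin n) (Fin n) A) *ᵥ x) ⬝ᵥ (J *ᵥ ((ρ (cj σ) : Matrix (Fin n) (Fin n) A) *ᵥ y)) =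
      algebraMap ℤ_[2] A (cyc σ) * (x ⬝ᵥ (J *ᵥ y))

/-- `l` is a continuous cocycle of the decomposition group with values in `A ^ n`. -/
structure LocalCocycle [TopologicalSpace A] (ρ : Gal s →* GL (Fin n) A) (ι : Emb 2)
    (l : Dec (s := s) ι → Fin n → A) : Prop where
  mul : ∀ δ δ' : Dec (s := s) ι, l (δ * δ') = l δ + (ρ δ : Matrix (Fin n) (Fin n) A) *ᵥ l δ'
  cont : Continuous l

/-- `z` is a continuous cocycle of the Galois group of `K` with values in `A ^ n`, unramified outside
`2`. -/
structure GlobalCocycle [TopologicalSpace A] (ρ : Gal s →* GL (Fin n) A) (z : Gal s → Fin n → A) :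
    Prop where
  mul : ∀ σ τ, z (σ * τ) = z σ + (ρ σ : Matrix (Fin n) (Fin n) A) *ᵥ z τ
  cont : Continuous z
  unramified : ∀ (p : ℕ) [Fact p.Prime] (ι : Emb p), p ≠ 2 →
    ∀ σ ∈ (Inr ι : Set (Gal s)), z σ = 0

/-- The restriction of `z` to the decomposition group is the sum of `∑ u i • l i` and of the
coboundary of `w`. -/
def RestrictsTo (ρ : Gal s →* GL (Fin n) A) (ι : Emb 2) {k : ℕ}
    (l : Fin k → Dec (s := s) ι → Fin n → A) (u : Fin k → A) (w : Fin n → A)
    (z : Gal s → Fin n → A) : Prop :=
  ∀ δ : Dec (s := s) ι,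
    z δ = ∑ i, u i • l i δ + ((ρ (δ : Gal s) : Matrix (Fin n) (Fin n) A) *ᵥ w - w)

/-- The cup product in `H²(K_v, A(1))` of the class of `l` and of the conjugate of the class of `z` at
the place `v̄` is zero: the two-cocycle `(δ, δ') ↦ J(l(δ), (c δ c) z(c δ' c))` is the coboundary of a
continuous function `f` on the decomposition group of `v`. -/
def Orthogonal [TopologicalSpace A] [Algebra ℤ_[2] A] (cj : Gal s → Gal s)
    (ρ : Gal s →* GL (Fin n) A) (J : Matrix (Fin n) (Fin n) A) (ι : Emb 2)
    (l : Dec (s := s) ι → Fin n → A) (z : Gal s → Fin n → A) : Prop :=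
  ∃ f : Dec (s := s) ι → A, Continuous f ∧ ∀ δ δ' : Dec (s := s) ι,
    l δ ⬝ᵥ (J *ᵥ ((ρ (cj δ) : Matrix (Fin n) (Fin n) A) *ᵥ z (cj δ'))) =
      f δ + algebraMap ℤ_[2] A (cyc (δ : Gal s)) * f δ' - f (δ * δ')

end ring

/-! ### Coefficients in the fraction field `F` of a domain `A` -/

section field

variable {s : QBar} {A : Type} [CommRing A] {n : ℕ} (F : Type) [Field F] [Algebra A F]

/-- The matrix of `σ` on `V = F ^ n`. -/
noncomputable def mat (ρ : Gal s →* GL (Fin n) A) (σ : Gal s) : Matrix (Fin n) (Fin n) F :=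
  (ρ σ : Matrix (Fin n) (Fin n) A).map (algebraMap A F)

/-- The cyclotomic character with values in `F`. -/
noncomputable def cycF [Algebra ℤ_[2] A] (σ : Gal s) : F :=
  algebraMap A F (algebraMap ℤ_[2] A (cyc σ))

/-- A function on a topological space with values in a finite product of copies of `F` is continuous
if a nonzero multiple of it is continuous with values in the lattice given by `A`. -/
def Cont {G : Type} [TopologicalSpace G] [TopologicalSpace A] {k : ℕ} (f : G → Fin k → F) : Prop :=
  ∃ (a : A) (b : G → Fin k → A), algebraMap A F a ≠ 0 ∧ Continuous b ∧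
    ∀ g i, algebraMap A F a * f g i = algebraMap A F (b g i)

/-- `z` is a continuous cocycle of the Galois group of `K` with values in `V = F ^ n`, unramified
outside `2`. -/
structure GlobalCocycleF [TopologicalSpace A] (ρ : Gal s →* GL (Fin n) A) (z : Gal s → Fin n → F) :
    Prop where
  mul : ∀ σ τ, z (σ * τ) = z σ + mat F ρ σ *ᵥ z τ
  cont : Cont (A := A) F z
  unramified : ∀ (p : ℕ) [Fact p.Prime] (ι : Emb p), p ≠ 2 →
    ∀ σ ∈ (Inr ι : Set (Gal s)), z σ = 0

/-- The classes of the cocycles `z 0`, …, `z (k - 1)` of the subgroup `D` are linearly independent in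
`H¹(D, V)`. -/
def Independent (ρ : Gal s →* GL (Fin n) A) (D : Subgroup (Gal s)) {k : ℕ}
    (z : Fin k → D → Fin n → F) : Prop :=
  ∀ a : Fin k → F, (∃ v : Fin n → F, ∀ δ : D, ∑ i, a i • z i δ = mat F ρ δ *ᵥ v - v) → a = 0

/-- The class of the cocycle `z` of the subgroup `D` is a linear combination of the classes of the
cocycles `l i`. -/
def InSpan (ρ : Gal s →* GL (Fin n) A) (D : Subgroup (Gal s)) {k : ℕ}
    (l : Fin k → D → Fin n → F) (z : D → Fin n → F) : Prop :=
  ∃ (a : Fin k → F) (v : Fin n → F), ∀ δ : D, z δ = ∑ i, a i • l i δ + (mat F ρ δ *ᵥ v - v)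

/-- The cup product in `H²(K_v, F(1))` of the class of `l` and of the conjugate of the class of `z` at
the place `v̄` is zero. -/
def OrthogonalF [TopologicalSpace A] [Algebra ℤ_[2] A] (cj : Gal s → Gal s)
    (ρ : Gal s →* GL (Fin n) A) (J : Matrix (Fin n) (Fin n) F) (ι : Emb 2)
    (l : Dec (s := s) ι → Fin n → F) (z : Gal s → Fin n → F) : Prop :=
  ∃ f : Dec (s := s) ι → F, Cont (A := A) F (fun δ (_ : Fin 1) => f δ) ∧
    ∀ δ δ' : Dec (s := s) ι, l δ ⬝ᵥ (J *ᵥ (mat F ρ (cj δ) *ᵥ z (cj δ'))) =
      f δ + cycF (A := A) F (δ : Gal s) * f δ' - f (δ * δ')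

/-- **The Selmer group.** The class of `z` is unramified outside `2`, it is in `L` at `v`, and it is
in the orthogonal complement of `L` at the conjugate place `v̄`; here `L` is the subspace of
`H¹(K_v, V)` spanned by the classes of the `l i`. -/
structure InSelmer [TopologicalSpace A] [Algebra ℤ_[2] A] (cj : Gal s → Gal s)
    (ρ : Gal s →* GL (Fin n) A) (J : Matrix (Fin n) (Fin n) F) (ι : Emb 2) {k : ℕ}
    (l : Fin k → Dec (s := s) ι → Fin n → F) (z : Gal s → Fin n → F) : Prop where
  global : GlobalCocycleF F ρ z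
  local_v : InSpan F ρ (Dec ι) l (fun δ => z δ)
  local_conj : ∀ i, OrthogonalF F cj ρ J ι (l i) z

end field

/-! ### The members of a family -/

section specialization

variable {s : QBar} {A : Type} [CommRing A] [Algebra ℤ_[2] A] {B : Type} [CommRing B]
  [Algebra ℤ_[2] B] {n : ℕ}

/-- The member of the family `ρ` at the point `φ : A → B`. -/
noncomputable def member (φ : A →ₐ[ℤ_[2]] B) (ρ : Gal s →* GL (Fin n) A) : Gal s →* GL (Fin n) B :=
  (GeneralLinearGroup.map (n := Fin n) (φ : A →+* B)).comp ρ

/-- The value at the point `φ` of a cochain with values in `A ^ n`. -/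
noncomputable def at_ (φ : A →ₐ[ℤ_[2]] B) {D : Type} (l : D → Fin n → A) : D → Fin n → B :=
  fun δ t => φ (l δ t)

/-- A cochain with values in `B ^ n` as a cochain with values in `F ^ n`. -/
def toF (F : Type) [Field F] [Algebra B F] {D : Type} (l : D → Fin n → B) : D → Fin n → F :=
  fun δ t => algebraMap B F (l δ t)

end specialization

/-! ### The proof -/

section proof

open Pool.Agent.H76.PS

variable {s : QBar}

/-- The conjugation on the Galois group exists. -/
theorem exists_conjBy {d : ℕ} (hs : s ^ 2 = -(d : QBar)) {c : QBar ≃ₐ[ℚ] QBar}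
    (hc : IsConjugation c) : ∃ cj : Gal s → Gal s, IsConjBy c cj := by
  have hinv : ∀ x, c (c x) = x := fun x => IsConj.invol hc x
  have hcs : c s ∈ K s := by
    have h1 : (c s - s) * (c s + s) = 0 := by
      have h2 : (c s) ^ 2 = -(d : QBar) := by rw [← map_pow, hs, map_neg, map_natCast]
      linear_combination h2 - hs
    have hsK : s ∈ K s := IntermediateField.mem_adjoin_simple_self ℚ s
    rcases mul_eq_zero.1 h1 with h | h
    · rw [sub_eq_zero.1 h]
      exact hsK
    · rw [eq_neg_of_add_eq_zero_left h]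
      exact neg_mem hsK
  have hK : ∀ x ∈ K s, c x ∈ K s := by
    have h1 : K s ≤ (K s).comap (c : QBar →ₐ[ℚ] QBar) := by
      rw [IntermediateField.adjoin_le_iff, Set.singleton_subset_iff]
      exact hcs
    exact fun x hx => h1 hx
  refine ⟨fun σ => show QBar ≃ₐ[K s] QBar from
    AlgEquiv.ofRingEquiv (f := (c.toRingEquiv.trans
      (show QBar ≃ₐ[K s] QBar from σ).toRingEquiv).trans c.toRingEquiv) fun r => ?_, fun σ x => rfl⟩
  have h1 : (show QBar ≃ₐ[K s] QBar from σ) (c (r : QBar)) = c (r : QBar) :=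
    (show QBar ≃ₐ[K s] QBar from σ).commutes ⟨c (r : QBar), hK _ r.2⟩
  show c ((show QBar ≃ₐ[K s] QBar from σ) (c (r : QBar))) = (r : QBar)
  rw [h1, hinv]

lemma cyc_isCyc : IsCyc (s := s) (fun σ => cyc (s := s) σ) := by
  intro σ m ζ hζ
  exact cyclotomicCharacter.spec 2 (n := m) (show QBar ≃ₐ[K s] QBar from σ).toRingEquiv ζ hζ

lemma pol_id {A : Type} [CommRing A] [Algebra ℤ_[2] A] {n : ℕ}
    {cj : Gal s → Gal s} {ρ : Gal s →* GL (Fin n) A} {J : Matrix (Fin n) (Fin n) A}
    (hJ : Polarized cj ρ J) (σ : Gal s) :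
    (ρ σ : Matrix (Fin n) (Fin n) A)ᵀ * J * (ρ (cj σ) : Matrix (Fin n) (Fin n) A) =
      (cyc σ : ℤ_[2]) • J := by
  ext i j
  have h := hJ.inv σ (Pi.single i 1) (Pi.single j 1)
  rw [Pool.Agent.H11.FM.dot_tr, Matrix.mulVec_mulVec, Matrix.mulVec_mulVec, single_one_dotProduct,
    single_one_dotProduct, Matrix.mulVec_single_one, Matrix.mulVec_single_one] at h
  rw [Matrix.smul_apply, Algebra.smul_def]
  exact h

end proof

/-- **One skew-symmetric matrix computes the Selmer groups of a family.** -/
theorem result : ∀ d : ℕ, InClass d → ∀ s : QBar, s ^ 2 = -(d : QBar) →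
    ∀ c : QBar ≃ₐ[ℚ] QBar, IsConjugation c → ∀ cj : Gal s → Gal s, IsConjBy c cj →
    -- the family over `A`, its pairing, and the family of local conditions at `v`
    ∀ (A : Type) [CommRing A] [IsLocalRing A] [IsNoetherianRing A] [TopologicalSpace A]
      [IsTopologicalRing A] [Algebra ℤ_[2] A],
      IsAdic (maximalIdeal A) → IsAdicComplete (maximalIdeal A) A → Finite (ResidueField A) →
      (2 : A) ∈ maximalIdeal A →
    ∀ (n : ℕ) (ρ : Gal s →* GL (Fin n) A), Admissible ρ →
    ∀ J : Matrix (Fin n) (Fin n) A, Polarized cj ρ J →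
    ∀ (ι : Emb 2) (k : ℕ) (l : Fin k → Dec (s := s) ι → Fin n → A),
      (∀ i, LocalCocycle ρ ι (l i)) →
    -- the skew-symmetric matrix
    ∃ C : Matrix (Fin k) (Fin k) A, Cᵀ = -C ∧
      -- the members with coefficients in a local ring `B`
      (∀ (B : Type) [CommRing B] [IsLocalRing B] [IsNoetherianRing B] [TopologicalSpace B]
          [IsTopologicalRing B] [Algebra ℤ_[2] B],
          IsAdic (maximalIdeal B) → Finite (ResidueField B) →
        ∀ φ : A →ₐ[ℤ_[2]] B, Continuous φ → ∀ (u : Fin k → B) (w : Fin n → B),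
          ∃ z : Gal s → Fin n → B, GlobalCocycle (member φ ρ) z ∧
            RestrictsTo (member φ ρ) ι (fun i => at_ φ (l i)) u w z ∧
            (∀ z', GlobalCocycle (member φ ρ) z' →
              RestrictsTo (member φ ρ) ι (fun i => at_ φ (l i)) u w z' → z' = z) ∧
            ((∀ i, Orthogonal cj (member φ ρ) (J.map φ) ι (at_ φ (l i)) z) ↔
              C.map φ *ᵥ u = 0)) ∧
      -- the members with coefficients in the fraction field `F` of a local domain `B`
      ∀ (B : Type) [CommRing B] [IsDomain B] [IsLocalRing B] [IsNoetherianRing B]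
          [TopologicalSpace B] [IsTopologicalRing B] [Algebra ℤ_[2] B],
          IsAdic (maximalIdeal B) → Finite (ResidueField B) →
        ∀ φ : A →ₐ[ℤ_[2]] B, Continuous φ → ∀ (F : Type) [Field F] [Algebra B F]
          [IsFractionRing B F],
          Independent F (member φ ρ) (Dec ι) (fun i => toF F (at_ φ (l i))) →
          ∃ r : ℕ, r + ((C.map φ).map (algebraMap B F)).rank = k ∧ (r = 0 ↔ φ C.det ≠ 0) ∧
            ((2 : B) ≠ 0 → Even (k - r)) ∧ ∃ z : Fin r → Gal s → Fin n → F,
              (∀ t, InSelmer F cj (member φ ρ) ((J.map φ).map (algebraMap B F)) ι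
                (fun i => toF F (at_ φ (l i))) (z t)) ∧
              Independent F (member φ ρ) ⊤ (fun t σ => z t σ) ∧
              ∀ y, InSelmer F cj (member φ ρ) ((J.map φ).map (algebraMap B F)) ι
                (fun i => toF F (at_ φ (l i))) y →
                InSpan F (member φ ρ) ⊤ (fun t σ => z t σ) (fun σ => y σ) := by
  intro d hd s hs c hc cj hcj A _ _ _ _ _ _ hA hcA hfA h2 n ρ hρ J hJ ι k l hl
  obtain ⟨C, hC, h1, h3⟩ := Pool.Agent.H11.FM.family (s := s) hs hd
    (χ := fun σ => cyc (s := s) σ) cyc_isCyc hc (cj := cj) hcj hA hcA hfA h2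
    (ρ := ρ) ⟨hρ.cont, hρ.unipotent, hρ.unramified⟩ hJ.symm (pol_id hJ) ι l
    (fun i => (hl i).cont) (fun i => (hl i).mul)
  refine ⟨C, hC, ?_, ?_⟩
  · intro B _ _ _ _ _ _ hB hfB φ hφ u w
    obtain ⟨z, ⟨g1, g2, g3⟩, hz, hu, ho⟩ := h1 B hB hfB φ hφ u w
    refine ⟨z, ⟨g1, g2, g3⟩, hz, fun z' hz' h => hu z' ⟨hz'.mul, hz'.cont, hz'.unramified⟩ h, ?_⟩
    rw [← ho]
    refine forall_congr' fun i => ?_
    unfold Orthogonal Pool.Agent.H11.FM.OR
    simp only [Algebra.smul_def]
    rfl
  · intro B _ _ _ _ _ _ _ hB hfB φ hφ F _ _ _ hind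
    have hselmer : ∀ y, InSelmer F cj (member φ ρ) ((J.map φ).map (algebraMap B F)) ι
        (fun i => toF F (at_ φ (l i))) y ↔
        Pool.Agent.H76.PS.Sel ((J.map φ).map (algebraMap B F)) (Pool.Agent.H11.FM.bc φ ρ)
          (fun σ => cyc (s := s) σ) cj ι (fun i => toF F (at_ φ (l i))) y := by
      intro y
      constructor
      · rintro ⟨⟨h1, h2, h3⟩, h4, h5⟩
        refine ⟨⟨h1, h2, h3⟩, h4, fun i => ?_⟩
        obtain ⟨f, ⟨a, b, ha, hb, hab⟩, hf⟩ := h5 i
        exact ⟨f, ⟨a, fun g => b g 0, ha, (continuous_apply 0).comp hb, fun g => hab g 0⟩, hf⟩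
      · rintro ⟨⟨h1, h2, h3⟩, h4, h5⟩
        refine ⟨⟨h1, h2, h3⟩, h4, fun i => ?_⟩
        obtain ⟨f, ⟨a, b, ha, hb, hab⟩, hf⟩ := h5 i
        exact ⟨f, ⟨a, fun g _ => b g, ha, continuous_pi fun _ => hb, fun g _ => hab g⟩, hf⟩
    obtain ⟨r, hr, hr0, hev, z, hz, hzi, hzs⟩ := h3 B hB hfB φ hφ F hind
    refine ⟨r, hr, hr0, hev, z, fun t => (hselmer _).2 (hz t), fun a ⟨v, hv⟩ =>
      hzi a ⟨v, fun σ => hv ⟨σ, trivial⟩⟩, fun y hy => ?_⟩
    obtain ⟨a, v, h⟩ := hzs y ((hselmer y).1 hy)
    exact ⟨a, v, fun σ => h (σ : Gal s)⟩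

end Pool.Agent.Results.MP_b4b3cb_nt.SkewMatrixOfFamily
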