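import Mathlib
import Pool.Agent.Results.MP_b4b3cb_nt.SkewMatrixOfFamily
import Pool.Agent.H11.SG.Adj
import Pool.Agent.H11.SG.Ker

/-!
# Selmer groups at the prime two: a function and a class on the family which give the order of the torsion

Let `K = ℚ(√-d)`, where `d` is a prime number that is `7` modulo `16`, or the product of a prime
number that is `5` modulo `8` and of a prime number that is `3` modulo `8`. Let `A` be a complete Noetherian
local ring with finite residue field of characteristic two, and let `ρ : G_K → GL_n(A)` be a family of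
representations: continuous, residually unipotent, unramified outside `2`, with a symmetric matrix `J` over `A`
such that `J(ρ(σ) x, ρ(c σ c) y) = χ(σ) J(x, y)`, `χ` the `2`-adic cyclotomic character. Let
`l 0, …, l (k - 1)` be continuous cocycles of the decomposition group of a place `v` above `2` with values in `A^n`,
a family of local conditions at `v`; the condition at `v̄` is the orthogonal complement.

Theorem. There are a function `P ∈ A` and a global cocycle `κ` with values in `A^n` (unramified outside `2`, in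
the span of the `l i` at `v`) with the following property. Let `φ : A → O` be a member of the family with
coefficients in a discrete valuation ring `O` of characteristic different from two with finite residue field and
uniformizer `ϖ`, such that the local conditions stay independent modulo all powers of `ϖ`. Then there are
`r` and `e_1, …, e_t` with `r + 2 t = k` such that, with `M = ⊕ O / ϖ ^ e_i` and `E = e_1 + … + e_t`,

1. the Selmer group with coefficients in `O / ϖ ^ j` is isomorphic to
   `(O / ϖ ^ j) ^ r ⊕ M / ϖ ^ j ⊕ M / ϖ ^ j` for all `j ≥ 1`, and the Selmer group with coefficients in `O` is free of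
   rank `r`;
2. if `r = 0` then `φ(P)` is a unit times `ϖ ^ E`, and if `r > 0` then `φ(P) = 0`;
3. if `r = 1` then `φ(κ)` is a unit times `ϖ ^ E` times a generator of the Selmer group with coefficients in
   `O`, and if `r ≠ 1` then `φ(κ) = 0`.

So the torsion part is a double `M ⊕ M`, as in the theorem of Howard on Kolyvagin systems for odd `p` and
residually irreducible representations, although for `p = 2` the pairings of this kind are in general only
skew-symmetric. If `k` is even, `P` is an algebraic counterpart of the square root of the central value: it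
vanishes exactly at the members of positive rank, and at the others the order of the torsion part is
`|φ(P)| ^ (-2)`. If `k` is odd (the sign is `-1`), `κ` is an algebraic counterpart of a Heegner class: it vanishes
exactly at the members of rank at least three, and at the members of rank one the order of the torsion part
is the square of the index of `φ(κ)`, as in the formula of Gross and Zagier with the theorem of
Kolyvagin and the conjecture of Birch and Swinnerton-Dyer. Both depend on the family only.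

## Relation with Q1

Let `π` be as in the problem, unramified outside `2`, with residually unipotent `2`-adic realization
`V` (over `K` as above). With `L = H¹_f(K_v, V)` the Selmer group is `H¹_f(K, V)` and
`ε(π) = (-1) ^ dim L`. The sign conjecture says that there is a nonzero class if `ε(π) = -1`. Here all these classes
come, for the members of rank one of a family, from a single class on the family. (These remarks use published
theorems and are not a part of the formal proof.)

## The proof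

By the theorem of `SkewMatrixOfFamily` the Selmer groups of all members are the kernels of one matrix `C`
over `A` with `Cᵀ = -C`, also for coefficients in `O / ϖ ^ j`. Its image over `O` is alternating because `2 ≠ 0` in `O`, and
has the normal form with the blocks `(0, ϖ ^ e_i; -ϖ ^ e_i, 0)` and zero (`Pool.Agent.H11.SG.sNF`). The function `P` is the
Pfaffian of `C`; for odd `k` the class `κ` belongs to the vector `p` of the Pfaffians of the principal submatrices of
size `k - 1` with signs, which satisfies `C p = 0` and `p_i p_j = adj(C)_ij`. Their existence is proved for the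
generic alternating matrix over `ℤ`, by the normal form over its field of fractions and since the
polynomial ring is integrally closed (`sPF`, `exists_vec`).

The definitions of `Gal`, `Dec`, `Inr`, `cyc`, `Admissible`, `Polarized`, `LocalCocycle`, `GlobalCocycle`, `RestrictsTo`,
`Orthogonal`, `member` and `at_` are in `SkewMatrixOfFamily.lean` in this folder.
-/

set_option autoImplicit false

namespace Pool.Agent.Results.MP_b4b3cb_nt.DoubleSelmerModules

open Matrix IsLocalRing Pool.Agent.Results.MP_b4b3cb_nt.SkewMatrixOfFamily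

/-- The module `T` is isomorphic to `S` modulo the elements of `S` in `N`: there is a surjective linear map from
`S` to `T` whose kernel is the intersection with `N`. -/
def QuotientIs {R M : Type} [CommRing R] [AddCommGroup M] [Module R M] (S N : Submodule R M)
    (T : Type) [AddCommGroup T] [Module R T] : Prop :=
  ∃ F : S →ₗ[R] T, Function.Surjective F ∧ ∀ z : S, F z = 0 ↔ (z : M) ∈ N

lemma QuotientIs.trans {R M : Type} [CommRing R] [AddCommGroup M] [Module R M]
    {S N : Submodule R M} {T T' : Type} [AddCommGroup T] [Module R T] [AddCommGroup T']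
    [Module R T'] (h : QuotientIs S N T) (e : T ≃ₗ[R] T') : QuotientIs S N T' := by
  obtain ⟨F, h1, h2⟩ := h
  refine ⟨e.toLinearMap.comp F, e.surjective.comp h1, fun z => ?_⟩
  rw [← h2]
  exact e.map_eq_zero_iff

section module

variable {s : QBar} {B : Type} [CommRing B] [TopologicalSpace B] [IsTopologicalRing B]
  [Algebra ℤ_[2] B] (R : Type) [CommRing R] [Algebra R B] {n k : ℕ}

lemma mulVec_smul' (M : Matrix (Fin n) (Fin n) B) (c : R) (x : Fin n → B) :
    M *ᵥ (c • x) = c • (M *ᵥ x) := by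
  rw [Matrix.mulVec_smul]

/-- The cocycles of the Selmer group of `B ^ n`: continuous cocycles which are unramified outside `2`, whose
restriction to the decomposition group of `v` is in the span of the `l i` and of the coboundaries, and
which are orthogonal to all `l i` at the conjugate place. -/
def selmerCocycles (cj : Gal s → Gal s) (ρ : Gal s →* GL (Fin n) B) (J : Matrix (Fin n) (Fin n) B)
    (ι : Emb 2) (l : Fin k → Dec (s := s) ι → Fin n → B) : Submodule R (Gal s → Fin n → B) where
  carrier := {z | GlobalCocycle ρ z ∧ (∃ (u : Fin k → B) (w : Fin n → B), RestrictsTo ρ ι l u w z) ∧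
    ∀ i, Orthogonal cj ρ J ι (l i) z}
  zero_mem' := by
    refine ⟨⟨fun σ τ => ?_, continuous_const, fun p _ ι' _ σ _ => rfl⟩, ⟨0, 0, fun δ => ?_⟩,
      fun i => ⟨fun _ => 0, continuous_const, fun δ δ' => ?_⟩⟩
    · simp
    · simp
    · simp
  add_mem' := by
    rintro x y ⟨hx, ⟨u, w, h⟩, hx'⟩ ⟨hy, ⟨u', w', h'⟩, hy'⟩
    refine ⟨⟨fun σ τ => ?_, hx.cont.add hy.cont, fun p _ ι' hp σ hσ => ?_⟩,
      ⟨u + u', w + w', fun δ => ?_⟩, fun i => ?_⟩
    · rw [Pi.add_apply, hx.mul, hy.mul, Pi.add_apply, Pi.add_apply, mulVec_add]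
      abel
    · rw [Pi.add_apply, hx.unramified p ι' hp σ hσ, hy.unramified p ι' hp σ hσ, add_zero]
    · rw [Pi.add_apply, h δ, h' δ, mulVec_add]
      simp only [Pi.add_apply, add_smul, Finset.sum_add_distrib]
      abel
    · obtain ⟨f, hf, hfe⟩ := hx' i
      obtain ⟨g, hg, hge⟩ := hy' i
      refine ⟨fun δ => f δ + g δ, hf.add hg, fun δ δ' => ?_⟩
      rw [Pi.add_apply, mulVec_add, mulVec_add, dotProduct_add, hfe, hge]
      ring
  smul_mem' := by
    rintro c x ⟨hx, ⟨u, w, h⟩, hx'⟩
    refine ⟨⟨fun σ τ => ?_, ?_, fun p _ ι' hp σ hσ => ?_⟩,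
      ⟨c • u, c • w, fun δ => ?_⟩, fun i => ?_⟩
    · rw [Pi.smul_apply, hx.mul, Pi.smul_apply, Pi.smul_apply, mulVec_smul', smul_add]
    · have h1 := hx.cont
      refine continuous_pi fun i => ?_
      have h2 : (fun σ => (c • x) σ i) = fun σ => algebraMap R B c * x σ i := by
        funext σ
        rw [Pi.smul_apply, Pi.smul_apply, Algebra.smul_def]
      rw [h2]
      exact continuous_const.mul ((continuous_apply i).comp h1)
    · rw [Pi.smul_apply, hx.unramified p ι' hp σ hσ, smul_zero]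
    · rw [Pi.smul_apply, h δ, mulVec_smul', smul_add, smul_sub, Finset.smul_sum]
      simp only [Pi.smul_apply, smul_assoc]
    · obtain ⟨f, hf, hfe⟩ := hx' i
      refine ⟨fun δ => algebraMap R B c * f δ, continuous_const.mul hf, fun δ δ' => ?_⟩
      rw [Pi.smul_apply, mulVec_smul', mulVec_smul', dotProduct_smul, hfe, Algebra.smul_def]
      ring

/-- The coboundaries. -/
def coboundaries (ρ : Gal s →* GL (Fin n) B) : Submodule R (Gal s → Fin n → B) where
  carrier := {z | ∃ w : Fin n → B, ∀ σ, z σ = (ρ σ : Matrix (Fin n) (Fin n) B) *ᵥ w - w}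
  zero_mem' := ⟨0, fun σ => by simp⟩
  add_mem' := by
    rintro x y ⟨w, h⟩ ⟨w', h'⟩
    refine ⟨w + w', fun σ => ?_⟩
    rw [Pi.add_apply, h, h', mulVec_add]
    abel
  smul_mem' := by
    rintro c x ⟨w, h⟩
    refine ⟨c • w, fun σ => ?_⟩
    rw [Pi.smul_apply, h, mulVec_smul', smul_sub]

/-- The local conditions `l i` are independent modulo coboundaries over `B`. -/
def LocallyIndependent (ρ : Gal s →* GL (Fin n) B) (ι : Emb 2)
    (l : Fin k → Dec (s := s) ι → Fin n → B) : Prop :=
  ∀ (u : Fin k → B) (w : Fin n → B),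
    (∀ δ : Dec (s := s) ι, ∑ i, u i • l i δ = (ρ (δ : Gal s) : Matrix (Fin n) (Fin n) B) *ᵥ w - w) →
    u = 0

/-- the local coordinates of a cocycle are unique -/
lemma rt_uniq {ρ : Gal s →* GL (Fin n) B} {ι : Emb 2} {l : Fin k → Dec (s := s) ι → Fin n → B}
    (hind : LocallyIndependent ρ ι l) {u u' : Fin k → B} {w w' : Fin n → B}
    {z : Gal s → Fin n → B} (h : RestrictsTo ρ ι l u w z) (h' : RestrictsTo ρ ι l u' w' z) :
    u = u' := by
  have h1 := hind (u - u') (w' - w) fun δ => by
    have h2 := h δ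
    rw [h' δ] at h2
    simp only [Pi.sub_apply, sub_smul, Finset.sum_sub_distrib, mulVec_sub]
    have h3 : ∑ i, u' i • l i δ = ∑ i, u i • l i δ +
      ((ρ (δ : Gal s) : Matrix (Fin n) (Fin n) B) *ᵥ w - w) -
      ((ρ (δ : Gal s) : Matrix (Fin n) (Fin n) B) *ᵥ w' - w') := by
      rw [← h2]
      abel
    rw [h3]
    abel
  exact sub_eq_zero.1 h1

/-- coboundaries are global cocycles -/
lemma cob_global {ρ : Gal s →* GL (Fin n) B}
    (hcont : ∀ i j, Continuous fun σ => (ρ σ : Matrix (Fin n) (Fin n) B) i j)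
    (hunr : ∀ (p : ℕ) [Fact p.Prime] (ι : Emb p), p ≠ 2 → ∀ σ ∈ (Inr ι : Set (Gal s)), ρ σ = 1)
    (w : Fin n → B) :
    GlobalCocycle ρ (fun σ => (ρ σ : Matrix (Fin n) (Fin n) B) *ᵥ w - w) := by
  refine ⟨fun σ τ => ?_, ?_, fun p _ ι' hp σ hσ => ?_⟩
  · rw [map_mul, Units.val_mul, ← mulVec_mulVec, mulVec_sub]
    abel
  · refine continuous_pi fun i => ?_
    simp only [Pi.sub_apply, mulVec, dotProduct]
    exact (continuous_finset_sum _ fun j _ => (hcont i j).mul continuous_const).sub
      continuous_const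
  · rw [hunr p ι' hp σ hσ]
    simp

section equiv

variable {cj : Gal s → Gal s} {ρ : Gal s →* GL (Fin n) B} {J : Matrix (Fin n) (Fin n) B}
    {ι : Emb 2} {l : Fin k → Dec (s := s) ι → Fin n → B}
    (hcont : ∀ i j, Continuous fun σ => (ρ σ : Matrix (Fin n) (Fin n) B) i j)
    (hunr : ∀ (p : ℕ) [Fact p.Prime] (ι : Emb p), p ≠ 2 → ∀ σ ∈ (Inr ι : Set (Gal s)), ρ σ = 1)
    (hind : LocallyIndependent ρ ι l) {D : Matrix (Fin k) (Fin k) B}
    (hD : ∀ (u : Fin k → B) (w : Fin n → B), ∃ z : Gal s → Fin n → B, GlobalCocycle ρ z ∧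
      RestrictsTo ρ ι l u w z ∧
      (∀ z', GlobalCocycle ρ z' → RestrictsTo ρ ι l u w z' → z' = z) ∧
      ((∀ i, Orthogonal cj ρ J ι (l i) z) ↔ D *ᵥ u = 0))

include hD in
lemma global_uniq {z z' : Gal s → Fin n → B} {u : Fin k → B} {w : Fin n → B}
    (hz : GlobalCocycle ρ z) (hz' : GlobalCocycle ρ z') (h : RestrictsTo ρ ι l u w z)
    (h' : RestrictsTo ρ ι l u w z') : z = z' := by
  obtain ⟨z₀, h1, h2, h3, h4⟩ := hD u w
  rw [h3 z hz h, h3 z' hz' h']

include hcont hunr hD in
lemma cob_of_zero {z : Gal s → Fin n → B} {w : Fin n → B} (hz : GlobalCocycle ρ z)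
    (h : RestrictsTo ρ ι l 0 w z) : z ∈ coboundaries R ρ :=
  ⟨w, fun σ => congrFun (global_uniq hD hz (cob_global hcont hunr w) h (fun δ => by simp)) σ⟩

include hD in
lemma mem_ker {z : Gal s → Fin n → B} {u : Fin k → B} {w : Fin n → B}
    (hz : z ∈ selmerCocycles R cj ρ J ι l) (h : RestrictsTo ρ ι l u w z) : D *ᵥ u = 0 := by
  obtain ⟨z₀, h1, h2, h3, h4⟩ := hD u w
  rw [← h4, ← h3 z hz.1 h]
  exact hz.2.2

include hcont hunr hind hD in
/-- the Selmer module is the kernel of the matrix -/
theorem selmer_equiv (K : Submodule R (Fin k → B)) (hK : ∀ u, u ∈ K ↔ D *ᵥ u = 0) :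
    QuotientIs (selmerCocycles R cj ρ J ι l) (coboundaries R ρ) K := by
  obtain ⟨Z, hZ⟩ : ∃ Z, Z = selmerCocycles R cj ρ J ι l := ⟨_, rfl⟩
  have hZm : ∀ z, z ∈ Z ↔ GlobalCocycle ρ z ∧ (∃ (u : Fin k → B) (w : Fin n → B),
      RestrictsTo ρ ι l u w z) ∧ ∀ i, Orthogonal cj ρ J ι (l i) z := fun z => by
    rw [hZ]
    exact Iff.rfl
  choose U W hUW using fun z : Z => ((hZm z).1 z.2).2.1
  have hUK : ∀ z : Z, U z ∈ K := by
    intro z
    rw [hK]
    have h1 : (z : Gal s → Fin n → B) ∈ selmerCocycles R cj ρ J ι l := hZ ▸ z.2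
    exact mem_ker R hD h1 (hUW z)
  let f : Z →ₗ[R] K :=
    { toFun := fun z => ⟨U z, hUK z⟩
      map_add' := fun x y => by
        apply Subtype.ext
        show U (x + y) = U x + U y
        refine rt_uniq hind (hUW (x + y)) (w' := W x + W y) fun δ => ?_
        show (x : Gal s → Fin n → B) δ + (y : Gal s → Fin n → B) δ = _
        rw [hUW x δ, hUW y δ, mulVec_add]
        simp only [Pi.add_apply, add_smul, Finset.sum_add_distrib]
        abel
      map_smul' := fun c x => by
        apply Subtype.ext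
        show U (c • x) = c • U x
        refine rt_uniq hind (hUW (c • x)) (w' := c • W x) fun δ => ?_
        show c • (x : Gal s → Fin n → B) δ = _
        rw [hUW x δ, mulVec_smul', smul_add, smul_sub, Finset.smul_sum]
        simp only [Pi.smul_apply, smul_assoc] }
  have hf : ∀ z : Z, ((f z : K) : Fin k → B) = U z := fun z => rfl
  have hfs : Function.Surjective f := by
    rintro ⟨u, hu⟩
    obtain ⟨z, h1, h2, h3, h4⟩ := hD u 0
    have hz : z ∈ Z := (hZm z).2 ⟨h1, ⟨u, 0, h2⟩, h4.2 ((hK u).1 hu)⟩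
    exact ⟨⟨z, hz⟩, Subtype.ext (rt_uniq hind (hUW ⟨z, hz⟩) h2)⟩
  have hker : ∀ z : Z, f z = 0 ↔ (z : Gal s → Fin n → B) ∈ coboundaries R ρ := by
    intro z
    rw [← Submodule.coe_eq_zero, hf]
    constructor
    · intro h
      exact cob_of_zero R hcont hunr hD ((hZm z).1 z.2).1 (w := W z) (h ▸ hUW z)
    · rintro ⟨w, h⟩
      refine rt_uniq hind (hUW z) (w' := w) fun δ => ?_
      rw [h]
      simp
  subst hZ
  exact ⟨f, hfs, hker⟩

end equiv

end module

section member

variable {s : QBar} {A : Type} [CommRing A] [Algebra ℤ_[2] A] {O : Type} [CommRing O]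
  [Algebra ℤ_[2] O] {n k : ℕ}

/-- the point of the family with coefficients in `O / ϖ ^ j` -/
noncomputable abbrev level (φ : A →ₐ[ℤ_[2]] O) (ϖ : O) (j : ℕ) :
    A →ₐ[ℤ_[2]] O ⧸ Ideal.span {ϖ ^ j} :=
  (Ideal.Quotient.mkₐ ℤ_[2] (Ideal.span {ϖ ^ j})).comp φ

/-- the Selmer cocycles of the member of the family at the point `φ` -/
noncomputable def memberCocycles [TopologicalSpace O] [IsTopologicalRing O]
    (cj : Gal s → Gal s) (ρ : Gal s →* GL (Fin n) A) (J : Matrix (Fin n) (Fin n) A) (ι : Emb 2)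
    (l : Fin k → Dec (s := s) ι → Fin n → A) (φ : A →ₐ[ℤ_[2]] O) :
    Submodule O (Gal s → Fin n → O) :=
  selmerCocycles O cj (member φ ρ) (J.map φ) ι (fun i => at_ φ (l i))

/-- `z` is a Selmer cocycle of the member `φ` and its class is a basis of the Selmer module -/
structure IsBasis [TopologicalSpace O] [IsTopologicalRing O] (cj : Gal s → Gal s)
    (ρ : Gal s →* GL (Fin n) A) (J : Matrix (Fin n) (Fin n) A) (ι : Emb 2)
    (l : Fin k → Dec (s := s) ι → Fin n → A) (φ : A →ₐ[ℤ_[2]] O) (z : Gal s → Fin n → O) :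
    Prop where
  mem : z ∈ memberCocycles cj ρ J ι l φ
  span : ∀ y ∈ memberCocycles cj ρ J ι l φ, ∃ b : O, y - b • z ∈ coboundaries O (member φ ρ)
  free : ∀ b : O, b • z ∈ coboundaries O (member φ ρ) → b = 0

/-- the Selmer cocycles of the member `φ` with coefficients in `O / ϖ ^ j` -/
noncomputable def levelCocycles [TopologicalSpace O] [IsTopologicalRing O] (cj : Gal s → Gal s)
    (ρ : Gal s →* GL (Fin n) A) (J : Matrix (Fin n) (Fin n) A) (ι : Emb 2)
    (l : Fin k → Dec (s := s) ι → Fin n → A) (φ : A →ₐ[ℤ_[2]] O) (ϖ : O) (j : ℕ) :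
    Submodule O (Gal s → Fin n → O ⧸ Ideal.span {ϖ ^ j}) :=
  selmerCocycles O cj (member (level φ ϖ j) ρ) (J.map (level φ ϖ j)) ι
    (fun i => at_ (level φ ϖ j) (l i))

/-- two copies of `⊕ O / ϖ ^ min (e i) j` and `r` copies of `O / ϖ ^ j` -/
def Double (ϖ : O) {t : ℕ} (e : Fin t → ℕ) (r j : ℕ) : Type :=
  (((i : Fin t) → O ⧸ Ideal.span {ϖ ^ min (e i) j}) ×
    ((i : Fin t) → O ⧸ Ideal.span {ϖ ^ min (e i) j})) × (Fin r → O ⧸ Ideal.span {ϖ ^ j})

/-- its addition -/
noncomputable instance instGroupDouble (ϖ : O) {t : ℕ} (e : Fin t → ℕ) (r j : ℕ) :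
    AddCommGroup (Double ϖ e r j) :=
  show AddCommGroup ((((i : Fin t) → O ⧸ Ideal.span {ϖ ^ min (e i) j}) ×
    ((i : Fin t) → O ⧸ Ideal.span {ϖ ^ min (e i) j})) × (Fin r → O ⧸ Ideal.span {ϖ ^ j}))
    from inferInstance

/-- its structure of a module -/
noncomputable instance instModuleDouble (ϖ : O) {t : ℕ} (e : Fin t → ℕ) (r j : ℕ) :
    Module O (Double ϖ e r j) :=
  show Module O ((((i : Fin t) → O ⧸ Ideal.span {ϖ ^ min (e i) j}) ×
    ((i : Fin t) → O ⧸ Ideal.span {ϖ ^ min (e i) j})) × (Fin r → O ⧸ Ideal.span {ϖ ^ j}))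
    from inferInstance

/-- the Selmer module of the member `φ` is free of rank `r` -/
def FreeOfRank [TopologicalSpace O] [IsTopologicalRing O] (cj : Gal s → Gal s)
    (ρ : Gal s →* GL (Fin n) A) (J : Matrix (Fin n) (Fin n) A) (ι : Emb 2)
    (l : Fin k → Dec (s := s) ι → Fin n → A) (φ : A →ₐ[ℤ_[2]] O) (r : ℕ) : Prop :=
  QuotientIs (memberCocycles cj ρ J ι l φ) (coboundaries O (member φ ρ)) (Fin r → O)

/-- the structure of the Selmer modules with coefficients in `O / ϖ ^ j` -/
def FiniteLevels [TopologicalSpace O] [IsTopologicalRing O] (cj : Gal s → Gal s)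
    (ρ : Gal s →* GL (Fin n) A) (J : Matrix (Fin n) (Fin n) A) (ι : Emb 2)
    (l : Fin k → Dec (s := s) ι → Fin n → A) (φ : A →ₐ[ℤ_[2]] O) (ϖ : O) (r : ℕ) {t : ℕ}
    (e : Fin t → ℕ) : Prop :=
  ∀ j : ℕ, 1 ≤ j → QuotientIs (levelCocycles cj ρ J ι l φ ϖ j)
    (coboundaries O (member (level φ ϖ j) ρ)) (Double ϖ e r j)

/-- the local conditions stay independent modulo all powers of `ϖ` -/
def Saturated (ρ : Gal s →* GL (Fin n) A) (ι : Emb 2) (l : Fin k → Dec (s := s) ι → Fin n → A)
    (φ : A →ₐ[ℤ_[2]] O) (ϖ : O) : Prop :=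
  ∀ j : ℕ, 1 ≤ j → LocallyIndependent (member (level φ ϖ j) ρ) ι
    (fun i => at_ (level φ ϖ j) (l i))

/-- **Description of the Selmer modules of the member `φ`** by its rank `r` and the exponents `e i`, and the
relation with the function `P` and the class `κ` on the family. -/
structure Describes [TopologicalSpace O] [IsTopologicalRing O] (cj : Gal s → Gal s)
    (ρ : Gal s →* GL (Fin n) A) (J : Matrix (Fin n) (Fin n) A) (ι : Emb 2)
    (l : Fin k → Dec (s := s) ι → Fin n → A) (P : A) (κ : Gal s → Fin n → A)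
    (φ : A →ₐ[ℤ_[2]] O) (ϖ : O) (r : ℕ) {t : ℕ} (e : Fin t → ℕ) : Prop where
  /-- the parity -/
  parity : r + 2 * t = k
  /-- the Selmer modules with coefficients in `O / ϖ ^ j` -/
  finite : FiniteLevels cj ρ J ι l φ ϖ r e
  /-- the Selmer module with coefficients in `O` is free of rank `r` -/
  free : FreeOfRank cj ρ J ι l φ r
  /-- rank zero: `P` gives the torsion -/
  rank_zero : r = 0 → Associated (φ P) (ϖ ^ ∑ i, e i)
  /-- positive rank: `P` vanishes -/
  rank_pos : r ≠ 0 → φ P = 0
  /-- rank one: the class `κ` is `ϖ ^ ∑ e i` times a basis `z` of the Selmer module, up to a unit -/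
  rank_one : r = 1 → ∃ (z : Gal s → Fin n → O) (a : O), IsBasis cj ρ J ι l φ z ∧
    Associated a (ϖ ^ ∑ i, e i) ∧ at_ φ κ = a • z
  /-- the other ranks: `κ` vanishes -/
  rank_ne_one : r ≠ 1 → at_ φ κ = 0

end member

/-- the Pfaffian and the kernel vector -/
lemma exists_pf {A : Type} [CommRing A] {k : ℕ} (C : Matrix (Fin k) (Fin k) A) (hC : Cᵀ = -C) :
    ∃ (P : A) (p : Fin k → A), (Even k → p = 0) ∧
      ∀ (O : Type) [CommRing O] [IsDomain O], (2 : O) ≠ 0 → ∀ φ : A →+* O,
      φ P ^ 2 = (C.map φ).det ∧ (C.map φ)ᵀ = -(C.map φ) ∧ (∀ i, (C.map φ) i i = 0) ∧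
      (Odd k → ∀ i j, φ (p i) * φ (p j) = (C.map φ).adjugate i j) := by
  classical
  have hsk : ∀ i j, C j i = -C i j := fun i j => congrFun (congrFun hC i) j
  obtain ⟨C', hC'⟩ : ∃ C' : Matrix (Fin k) (Fin k) A, ∀ i j, C' i j = if i = j then 0 else C i j :=
    ⟨fun i j => if i = j then 0 else C i j, fun _ _ => rfl⟩
  have hC't : C'ᵀ = -C' := by
    ext i j
    rw [transpose_apply, neg_apply, hC', hC']
    by_cases h : i = j
    · rw [if_pos h, if_pos h.symm, neg_zero]
    · rw [if_neg h, if_neg (Ne.symm h), hsk i j]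
  have hC'd : ∀ i, C' i i = 0 := fun i => by rw [hC', if_pos rfl]
  obtain ⟨P, hP⟩ := Pool.Agent.H11.SG.sPF A k C' hC't hC'd
  obtain ⟨p, hp0, hp⟩ : ∃ p : Fin k → A, (Even k → p = 0) ∧
      (Odd k → ∀ i j, p i * p j = C'.adjugate i j) := by
    by_cases hk : Odd k
    · obtain ⟨p, hp, -⟩ := Pool.Agent.H11.SG.exists_vec A k hk C' hC't hC'd
      exact ⟨p, fun h => absurd h (Nat.not_even_iff_odd.2 hk), fun _ => hp⟩
    · exact ⟨0, fun _ => rfl, fun h => absurd h hk⟩
  refine ⟨P, p, hp0, fun O _ _ h2 φ => ?_⟩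
  have hd : ∀ i, φ (C i i) = 0 := by
    intro i
    have h1 := congrArg φ (hsk i i)
    rw [map_neg] at h1
    have h3 : (2 : O) * φ (C i i) = 0 := by linear_combination h1
    exact (mul_eq_zero.1 h3).resolve_left h2
  have hmap : C'.map φ = C.map φ := by
    ext i j
    rw [map_apply, map_apply, hC']
    by_cases h : i = j
    · subst h
      rw [if_pos rfl, map_zero, hd]
    · rw [if_neg h]
  refine ⟨?_, ?_, hd, ?_⟩
  · rw [← map_pow, hP, RingHom.map_det, ← hmap]
    rfl
  · ext i j
    rw [transpose_apply, neg_apply, map_apply, map_apply, hsk i j, map_neg]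
  · intro hk i j
    rw [← map_mul, hp hk, ← hmap]
    exact congrFun (congrFun (RingHom.map_adjugate φ C') i) j

/-- the quotient ring `O / ϖ ^ j` -/
lemma quot_adic {O : Type} [CommRing O] [IsDomain O] [IsDiscreteValuationRing O]
    [TopologicalSpace O] [IsTopologicalRing O] (hO : IsAdic (maximalIdeal O))
    (hf : Finite (ResidueField O)) {ϖ : O} (hϖ : Irreducible ϖ) {j : ℕ} (hj : 1 ≤ j) :
    ∃ _ : IsLocalRing (O ⧸ Ideal.span {ϖ ^ j}), IsAdic (maximalIdeal (O ⧸ Ideal.span {ϖ ^ j})) ∧
      Finite (ResidueField (O ⧸ Ideal.span {ϖ ^ j})) := by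
  obtain ⟨I, hI⟩ : ∃ I, I = Ideal.span {ϖ ^ j} := ⟨_, rfl⟩
  have hm : maximalIdeal O = Ideal.span {ϖ} := (IsDiscreteValuationRing.irreducible_iff_uniformizer ϖ).1 hϖ
  have hIm : I = maximalIdeal O ^ j := by rw [hI, hm, Ideal.span_singleton_pow]
  rw [← hI]
  have hnt : Nontrivial (O ⧸ I) := by
    rw [Ideal.Quotient.nontrivial_iff, hI, Ne, Ideal.span_singleton_eq_top]
    intro h
    exact hϖ.not_isUnit ((isUnit_pow_iff (by omega)).1 h)
  have hloc : IsLocalRing (O ⧸ I) :=
    IsLocalRing.of_surjective' (Ideal.Quotient.mk I) Ideal.Quotient.mk_surjective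
  have hdisc : DiscreteTopology (O ⧸ I) := by
    apply discreteTopology_of_isOpen_singleton_zero
    rw [← (QuotientRing.isOpenQuotientMap_mk I).isQuotientMap.isOpen_preimage]
    have h1 : (Ideal.Quotient.mk I) ⁻¹' {0} = ((maximalIdeal O ^ j : Ideal O) : Set O) := by
      ext x
      rw [← hIm, Set.mem_preimage, Set.mem_singleton_iff, Ideal.Quotient.eq_zero_iff_mem]
      exact Iff.rfl
    rw [h1]
    exact (isAdic_iff.1 hO).1 j
  have hpow : maximalIdeal (O ⧸ I) ^ j = ⊥ := by
    have h1 : maximalIdeal (O ⧸ I) ≤ Ideal.span {Ideal.Quotient.mk I ϖ} := by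
      intro x hx
      obtain ⟨a, rfl⟩ := Ideal.Quotient.mk_surjective x
      have ha : a ∈ maximalIdeal O := by
        rw [mem_maximalIdeal, mem_nonunits_iff] at hx ⊢
        exact fun h => hx (h.map _)
      rw [hm, Ideal.mem_span_singleton] at ha
      rw [Ideal.mem_span_singleton]
      exact map_dvd _ ha
    rw [eq_bot_iff]
    refine (Ideal.pow_right_mono h1 j).trans ?_
    rw [Ideal.span_singleton_pow, ← map_pow, Ideal.span_singleton_le_iff_mem, Ideal.mem_bot,
      Ideal.Quotient.eq_zero_iff_mem, hI]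
    exact Ideal.mem_span_singleton_self _
  refine ⟨hloc, ?_, ?_⟩
  · rw [isAdic_iff]
    refine ⟨fun n => isOpen_discrete _, fun t ht => ⟨j, ?_⟩⟩
    rw [hpow]
    intro x hx
    rw [SetLike.mem_coe, Ideal.mem_bot] at hx
    rw [hx]
    exact mem_of_mem_nhds ht
  · let f : O →+* ResidueField (O ⧸ I) := (IsLocalRing.residue (O ⧸ I)).comp (Ideal.Quotient.mk I)
    have hf1 : Function.Surjective f :=
      (IsLocalRing.residue_surjective).comp Ideal.Quotient.mk_surjective
    have hk : RingHom.ker f = maximalIdeal O :=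
      IsLocalRing.eq_maximalIdeal (RingHom.ker_isMaximal_of_surjective f hf1)
    have e := RingHom.quotientKerEquivOfSurjective hf1
    have h2 : Finite (O ⧸ RingHom.ker f) := by
      rw [hk]
      exact hf
    exact Finite.of_equiv _ e.toEquiv

/-- vectors which are killed by all powers of `ϖ` -/
lemma eq_zero_of_pow {O : Type} [CommRing O] [IsDomain O] [IsDiscreteValuationRing O] {ϖ a : O}
    (hϖ : Irreducible ϖ) (h : ∀ j : ℕ, 1 ≤ j → ϖ ^ j ∣ a) : a = 0 := by
  by_contra ha
  obtain ⟨m, hm⟩ := IsDiscreteValuationRing.associated_pow_irreducible ha hϖ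
  have h1 := (hm.dvd_iff_dvd_right).1 (h (m + 1) (by omega))
  have h2 := (pow_dvd_pow_iff hϖ.ne_zero hϖ.not_isUnit).1 h1
  omega

/-- two vectors with the same products -/
lemma eq_or_eq_neg {O : Type} [CommRing O] [IsDomain O] {k : ℕ} {p q : Fin k → O}
    (h : ∀ i j, p i * p j = q i * q j) : p = q ∨ p = -q := by
  by_cases hq : q = 0
  · left
    funext i
    have h1 := h i i
    rw [hq, Pi.zero_apply, mul_zero, mul_self_eq_zero] at h1
    rw [h1, hq, Pi.zero_apply]
  · obtain ⟨i, hi⟩ := Function.ne_iff.1 hq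
    rw [Pi.zero_apply] at hi
    rcases mul_self_eq_mul_self_iff.1 (h i i) with h1 | h1
    · left
      funext j
      have h2 := h i j
      rw [h1] at h2
      exact mul_left_cancel₀ hi h2
    · right
      funext j
      have h2 := h i j
      rw [h1, neg_mul] at h2
      rw [Pi.neg_apply]
      apply mul_left_cancel₀ hi
      linear_combination -h2

lemma member_id {s : QBar} {A : Type} [CommRing A] [Algebra ℤ_[2] A] {n : ℕ}
    (ρ : Gal s →* GL (Fin n) A) : member (AlgHom.id ℤ_[2] A) ρ = ρ := by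
  ext σ i j
  rfl

lemma at_global {s : QBar} {A : Type} [CommRing A] [Algebra ℤ_[2] A] [TopologicalSpace A]
    {B : Type} [CommRing B] [Algebra ℤ_[2] B] [TopologicalSpace B] {n : ℕ}
    {ρ : Gal s →* GL (Fin n) A} {φ : A →ₐ[ℤ_[2]] B} (hφ : Continuous φ) {z : Gal s → Fin n → A}
    (hz : GlobalCocycle ρ z) : GlobalCocycle (member φ ρ) (at_ φ z) where
  mul σ τ := by
    funext i
    show φ (z (σ * τ) i) = φ (z σ i) + ∑ j, φ ((ρ σ : Matrix (Fin n) (Fin n) A) i j) * φ (z τ j)
    rw [hz.mul, Pi.add_apply, map_add]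
    simp only [mulVec, dotProduct, map_sum, map_mul]
  cont := continuous_pi fun i => hφ.comp ((continuous_apply i).comp hz.cont)
  unramified p _ ι hp σ hσ := by
    funext i
    show φ (z σ i) = 0
    rw [hz.unramified p ι hp σ hσ]
    exact map_zero _

lemma at_restricts {s : QBar} {A : Type} [CommRing A] [Algebra ℤ_[2] A]
    {B : Type} [CommRing B] [Algebra ℤ_[2] B] {n k : ℕ} {ρ : Gal s →* GL (Fin n) A} {ι : Emb 2}
    {l : Fin k → Dec (s := s) ι → Fin n → A} (φ : A →ₐ[ℤ_[2]] B) {u : Fin k → A}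
    {z : Gal s → Fin n → A} (h : RestrictsTo ρ ι l u 0 z) :
    RestrictsTo (member φ ρ) ι (fun i => at_ φ (l i)) (fun i => φ (u i)) 0 (at_ φ z) := by
  intro δ
  funext i
  have h1 := congrFun (h δ) i
  rw [mulVec_zero, sub_zero, add_zero, Finset.sum_apply] at h1
  rw [mulVec_zero, sub_zero, add_zero, Finset.sum_apply]
  show φ (z δ i) = ∑ j, φ (u j) * φ (l j δ i)
  rw [h1, map_sum]
  exact Finset.sum_congr rfl fun j _ => map_mul φ _ _

/-- vectors in the kernel -/
lemma ker_iff {O : Type} [CommRing O] [IsDomain O] {k t r : ℕ} {C : Matrix (Fin k) (Fin k) O}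
    {g : Fin t → O} {E : (Fin k → O) ≃ₗ[O] (Fin t → O × O) × (Fin r → O)} (hg : ∀ i, g i ≠ 0)
    (hE : ∀ x y, x ⬝ᵥ (C *ᵥ y) =
      ∑ i, g i * (((E x).1 i).1 * ((E y).1 i).2 - ((E x).1 i).2 * ((E y).1 i).1))
    (u : Fin k → O) : C *ᵥ u = 0 ↔ (E u).1 = 0 := by
  constructor
  · intro h
    funext i
    have h2 : ∀ x, x ⬝ᵥ (C *ᵥ u) = 0 := fun x => by rw [h, dotProduct_zero]
    refine Prod.ext ?_ ?_
    · have h3 := h2 (E.symm (Pi.single i (0, 1), 0))
      rw [hE, E.apply_symm_apply, Finset.sum_eq_single i] at h3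
      · simp only [Pi.single_eq_same, zero_mul, one_mul, zero_sub, mul_neg, neg_eq_zero,
          mul_eq_zero] at h3
        exact h3.resolve_left (hg i)
      · intro i' _ hi
        simp [Pi.single_eq_of_ne hi]
      · intro h
        exact absurd (Finset.mem_univ _) h
    · have h3 := h2 (E.symm (Pi.single i (1, 0), 0))
      rw [hE, E.apply_symm_apply, Finset.sum_eq_single i] at h3
      · simp only [Pi.single_eq_same, zero_mul, one_mul, sub_zero, mul_eq_zero] at h3
        exact h3.resolve_left (hg i)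
      · intro i' _ hi
        simp [Pi.single_eq_of_ne hi]
      · intro h
        exact absurd (Finset.mem_univ _) h
  · intro h
    funext i
    have h2 : (C *ᵥ u) i = Pi.single i 1 ⬝ᵥ (C *ᵥ u) := by
      rw [single_one_dotProduct]
    rw [h2, hE, h]
    simp

/-- **A function and a class on the family.** -/
theorem result : ∀ d : ℕ, InClass d → ∀ s : QBar, s ^ 2 = -(d : QBar) →
    ∀ c : QBar ≃ₐ[ℚ] QBar, IsConjugation c → ∀ cj : Gal s → Gal s, IsConjBy c cj →
    -- the family over `A`, its pairing, and the family of local conditions at `v`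
    ∀ (A : Type) [CommRing A] [IsLocalRing A] [IsNoetherianRing A] [TopologicalSpace A]
      [IsTopologicalRing A] [Algebra ℤ_[2] A],
      IsAdic (maximalIdeal A) → IsAdicComplete (maximalIdeal A) A → Finite (ResidueField A) →
      (2 : A) ∈ maximalIdeal A →
    ∀ (n : ℕ) (ρ : Gal s →* GL (Fin n) A), Admissible ρ →
    ∀ J : Matrix (Fin n) (Fin n) A, Polarized cj ρ J →
    ∀ (ι : Emb 2) (k : ℕ) (l : Fin k → Dec (s := s) ι → Fin n → A),
      (∀ i, LocalCocycle ρ ι (l i)) →
    -- the function `P` and the class `κ` on the family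
    ∃ (P : A) (κ : Gal s → Fin n → A), GlobalCocycle ρ κ ∧ (∃ p, RestrictsTo ρ ι l p 0 κ) ∧
      -- the members with coefficients in a discrete valuation ring `O`
      ∀ (O : Type) [CommRing O] [IsDomain O] [IsDiscreteValuationRing O] [TopologicalSpace O]
        [IsTopologicalRing O] [Algebra ℤ_[2] O],
        IsAdic (maximalIdeal O) → Finite (ResidueField O) → (2 : O) ≠ 0 →
      ∀ φ : A →ₐ[ℤ_[2]] O, Continuous φ → ∀ ϖ : O, Irreducible ϖ → Saturated ρ ι l φ ϖ →
        ∃ (r t : ℕ) (e : Fin t → ℕ), Describes cj ρ J ι l P κ φ ϖ r e := by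
  intro d hd s hs c hc cj hcj A _ _ _ _ _ _ hA hcA hfA h2 n ρ hρ J hJ ι k l hl
  obtain ⟨C, hC, hC1, -⟩ := Pool.Agent.Results.MP_b4b3cb_nt.SkewMatrixOfFamily.result d hd s hs c hc
    cj hcj A hA hcA hfA h2 n ρ hρ J hJ ι k l hl
  obtain ⟨P, p, hp0, hP⟩ := exists_pf C hC
  obtain ⟨κ, hκ1, hκ2, -, -⟩ := hC1 A hA hfA (AlgHom.id ℤ_[2] A) continuous_id p 0
  rw [member_id] at hκ1 hκ2
  refine ⟨P, κ, hκ1, ⟨p, hκ2⟩, ?_⟩
  intro O _ _ _ _ _ _ hO hfO h20 φ hφ ϖ hϖ hind
  obtain ⟨hP1, hsk, hdg, hp⟩ := hP O h20 (φ : A →+* O)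
  obtain ⟨t, r, g, E, hg0, hE⟩ := Pool.Agent.H11.SG.sNF O k _ hsk hdg
  obtain ⟨hdet0, hdet1⟩ := Pool.Agent.H11.SG.sDET O k t r _ g E hE
  choose e he using fun i => IsDiscreteValuationRing.associated_pow_irreducible (hg0 i) hϖ
  have hrt : r + 2 * t = k := by
    have h := E.finrank_eq
    rw [Module.finrank_prod, Module.finrank_fin_fun, Module.finrank_fin_fun,
      Module.finrank_pi_fintype] at h
    simp at h
    omega
  have hprod : ∀ u : O, IsUnit u → Associated (u * ∏ i, g i) (ϖ ^ ∑ i, e i) := by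
    intro u hu
    rw [← Finset.prod_pow_eq_pow_sum]
    refine Associated.trans (associated_unit_mul_left _ _ hu) ?_
    exact Associated.prod _ _ _ fun i _ => he i
  -- the member over `O`
  have hcont : ∀ i j, Continuous fun σ => (member φ ρ σ : Matrix (Fin n) (Fin n) O) i j :=
    fun a b => hφ.comp (hρ.cont a b)
  have hunr : ∀ (p : ℕ) [Fact p.Prime] (ι : Emb p), p ≠ 2 → ∀ σ ∈ (Inr ι : Set (Gal s)),
      member φ ρ σ = 1 := by
    intro p _ ι' hp σ hσ
    show GeneralLinearGroup.map (n := Fin n) (φ : A →+* O) (ρ σ) = 1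
    rw [hρ.unramified p ι' hp σ hσ, map_one]
  have hindO : LocallyIndependent (member φ ρ) ι (fun i => at_ φ (l i)) := by
    intro u w h
    funext i
    refine eq_zero_of_pow hϖ fun j hj => ?_
    have h1 := hind j hj (fun i => Ideal.Quotient.mk _ (u i)) (fun i => Ideal.Quotient.mk _ (w i))
      fun δ => by
        funext a
        have h2 := congrArg (Ideal.Quotient.mk (Ideal.span {ϖ ^ j})) (congrFun (h δ) a)
        rw [Finset.sum_apply, map_sum, Pi.sub_apply, map_sub] at h2
        rw [Finset.sum_apply, Pi.sub_apply]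
        simp only [mulVec, dotProduct, map_sum, map_mul, Pi.smul_apply, smul_eq_mul] at h2 ⊢
        exact h2
    have h2 := congrFun h1 i
    rw [Pi.zero_apply, Ideal.Quotient.eq_zero_iff_mem, Ideal.mem_span_singleton] at h2
    exact h2
  have hDO := fun u w => hC1 O hO hfO φ hφ u w
  have hκφ := at_global hφ hκ1
  have hκr := at_restricts φ hκ2
  have hker : ∀ u, (C.map φ) *ᵥ u = 0 ↔ (E u).1 = 0 := ker_iff hg0 hE
  have hκr' : RestrictsTo (member φ ρ) ι (fun i => at_ φ (l i)) (fun i => φ (p i)) 0 (at_ φ κ) :=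
    hκr
  refine ⟨r, t, e, ⟨hrt, fun j hj => ?_, ?_, fun hr => ?_, fun hr => ?_, fun hr => ?_,
    fun hr => ?_⟩⟩
  · obtain ⟨hloc, had, hfin⟩ := quot_adic hO hfO hϖ hj
    have hcφ : Continuous (level φ ϖ j) := continuous_quot_mk.comp hφ
    obtain ⟨K, hK⟩ : ∃ K : Submodule O (Fin k → O ⧸ Ideal.span {ϖ ^ j}), ∀ u, u ∈ K ↔
        (C.map (level φ ϖ j)) *ᵥ u = 0 :=
      ⟨LinearMap.ker ((Matrix.mulVecLin (C.map (level φ ϖ j))).restrictScalars O), fun u => Iff.rfl⟩
    have e1 := selmer_equiv O (cj := cj) (ρ := member (level φ ϖ j) ρ)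
      (J := J.map (level φ ϖ j)) (ι := ι) (l := fun i => at_ (level φ ϖ j) (l i))
      (fun a b => hcφ.comp (hρ.cont a b)) (fun p _ ι' hp σ hσ => by
        show GeneralLinearGroup.map (n := Fin n) (level φ ϖ j : A →+* O ⧸ Ideal.span {ϖ ^ j})
          (ρ σ) = 1
        rw [hρ.unramified p ι' hp σ hσ, map_one]) (hind j hj)
      (fun u w => hC1 _ had hfin (level φ ϖ j) hcφ u w) K hK
    obtain ⟨e2⟩ := Pool.Agent.H11.SG.ker_equiv hϖ.ne_zero he hE j K hK
    exact e1.trans e2
  · obtain ⟨K, hK⟩ : ∃ K : Submodule O (Fin k → O), ∀ u, u ∈ K ↔ (C.map φ) *ᵥ u = 0 :=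
      ⟨LinearMap.ker (Matrix.mulVecLin (C.map φ)), fun u => Iff.rfl⟩
    have e1 := selmer_equiv O hcont hunr hindO hDO K hK
    let e3 : K ≃ₗ[O] (Fin r → O) :=
      { toFun := fun u => (E u.1).2
        map_add' := fun x y => by simp
        map_smul' := fun c x => by simp
        invFun := fun v => ⟨E.symm (0, v), (hK _).2 ((hker _).2 (by rw [E.apply_symm_apply]))⟩
        left_inv := fun u => by
          apply Subtype.ext
          apply E.injective
          rw [E.apply_symm_apply]
          exact Prod.ext ((hker _).1 ((hK _).1 u.2)).symm rfl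
        right_inv := fun v => by
          show (E (E.symm (0, v))).2 = v
          rw [E.apply_symm_apply] }
    exact e1.trans e3
  · obtain ⟨u, hu, h⟩ := hdet0 hr
    rw [← hP1] at h
    rcases sq_eq_sq_iff_eq_or_eq_neg.1 h with h4 | h4
    · show Associated ((φ : A →+* O) P) _
      rw [h4]
      exact hprod u hu
    · show Associated ((φ : A →+* O) P) _
      rw [h4]
      exact (hprod u hu).neg_left
  · have h := hdet1 hr
    rw [← hP1] at h
    exact pow_eq_zero_iff (two_ne_zero) |>.1 h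
  · subst hr
    have hk : Odd k := ⟨t, by omega⟩
    obtain ⟨u, hu, hadj⟩ := Pool.Agent.H11.SG.adj1 hE
    obtain ⟨h, hh⟩ : ∃ h, h = E.symm (0, fun _ => 1) := ⟨_, rfl⟩
    rw [← hh] at hadj
    obtain ⟨a, ha, hpa⟩ : ∃ a : O, Associated a (ϖ ^ ∑ i, e i) ∧ (fun i => φ (p i)) = a • h := by
      have h1 : ∀ i j, φ (p i) * φ (p j) = ((u * ∏ i, g i) • h) i * ((u * ∏ i, g i) • h) j := by
        intro i j
        rw [Pi.smul_apply, Pi.smul_apply, smul_eq_mul, smul_eq_mul]
        have h2 := hp hk i j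
        rw [hadj] at h2
        rw [show φ (p i) * φ (p j) = (φ : A →+* O) (p i) * (φ : A →+* O) (p j) from rfl, h2]
        ring
      rcases eq_or_eq_neg (p := fun i => φ (p i)) h1 with h2 | h2
      · exact ⟨_, hprod u hu, h2⟩
      · refine ⟨-(u * ∏ i, g i), (hprod u hu).neg_left, ?_⟩
        rw [h2, neg_smul]
    have hh0 : (C.map φ) *ᵥ h = 0 := by
      rw [hker, hh, E.apply_symm_apply]
    obtain ⟨z, hz1, hz2, hz3, hz4⟩ := hDO h 0
    have hzm : z ∈ memberCocycles cj ρ J ι l φ := ⟨hz1, ⟨h, 0, hz2⟩, hz4.2 hh0⟩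
    have hzr : ∀ b : O, RestrictsTo (member φ ρ) ι (fun i => at_ φ (l i)) (b • h) 0 (b • z) := by
      intro b δ
      rw [Pi.smul_apply, hz2 δ, mulVec_zero, sub_zero, add_zero, add_zero, Finset.smul_sum]
      simp only [Pi.smul_apply, smul_assoc]
    refine ⟨z, a, ⟨hzm, ?_, ?_⟩, ha, ?_⟩
    · rintro y ⟨hy1, ⟨u', w', hy2⟩, hy3⟩
      have hu' : (C.map φ) *ᵥ u' = 0 := mem_ker O hDO ⟨hy1, ⟨u', w', hy2⟩, hy3⟩ hy2
      obtain ⟨b, hb⟩ : ∃ b : O, u' = b • h := by
        refine ⟨(E u').2 0, ?_⟩
        apply E.injective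
        rw [map_smul, hh, E.apply_symm_apply]
        refine Prod.ext ?_ (funext fun i => ?_)
        · rw [(hker _).1 hu']
          simp
        · rw [Subsingleton.elim i 0]
          simp
      refine ⟨b, ?_⟩
      have hyz : y - b • z ∈ memberCocycles cj ρ J ι l φ :=
        Submodule.sub_mem _ ⟨hy1, ⟨u', w', hy2⟩, hy3⟩ (Submodule.smul_mem _ b hzm)
      refine cob_of_zero O hcont hunr hDO hyz.1 (w := w') fun δ => ?_
      rw [Pi.sub_apply, hy2 δ, hzr b δ, hb]
      simp
    · rintro b ⟨w, hw⟩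
      have h1 : RestrictsTo (member φ ρ) ι (fun i => at_ φ (l i)) 0 w (b • z) := by
        intro δ
        rw [hw]
        simp
      have h2 := rt_uniq hindO (hzr b) h1
      have h3 := congrFun (congrArg Prod.snd (congrArg E h2)) 0
      rw [map_smul, hh, E.apply_symm_apply, map_zero] at h3
      simpa using h3
    · refine global_uniq hDO hκφ (Submodule.smul_mem _ a hzm).1 (u := a • h) (w := 0) ?_ (hzr a)
      rw [← hpa]
      exact hκr'
  · have hp1 : (fun i => φ (p i)) = 0 := by
      rcases Nat.even_or_odd k with hk | hk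
      · rw [hp0 hk]
        funext i
        exact map_zero φ
      · have hr2 : 2 ≤ r := by
          obtain ⟨m, hm⟩ := hk
          omega
        funext i
        have h2 := hp hk i i
        rw [Pool.Agent.H11.SG.adj2 hE hr2] at h2
        exact mul_self_eq_zero.1 h2
    rw [hp1] at hκr'
    refine global_uniq hDO hκφ (z' := 0) ?_ hκr' fun δ => by simp
    exact (Submodule.zero_mem (memberCocycles cj ρ J ι l φ)).1

end Pool.Agent.Results.MP_b4b3cb_nt.DoubleSelmerModules
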