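import Mathlib
import Pool.Agent.Results.MP_b4b3cb_nt.SkewMatrixOfFamily
import Pool.Agent.Results.MP_b4b3cb_nt.DoubleSelmerModules
import Pool.Agent.H11.SG.Real

/-!
# Selmer groups at the prime two: every alternating matrix and every doubled module occur

Let `K = ℚ(√-d)`, where `d` is a prime number that is `7` modulo `16`, or the product of a prime
number that is `5` modulo `8` and of a prime number that is `3` modulo `8`. In `SkewMatrixOfFamily` and
`DoubleSelmerModules` it is shown that the Selmer groups of all members of a family of conjugate self-dual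
representations `ρ : G_K → GL_n(A)` (continuous, residually unipotent, unramified outside `2`), with `k` local
conditions at `v` and the orthogonal conditions at `v̄`, are computed by one matrix `C` over `A` with `Cᵀ = -C`, and
that the Selmer modules of the members over a discrete valuation ring `O` are described by
`r` and by a module `M = ⊕ O / ϖ ^ e_i` with `r + 2 t = k`: `(O / ϖ ^ j) ^ r ⊕ M / ϖ ^ j ⊕ M / ϖ ^ j`.

Here the converse is proved: there are no further restrictions.

1. For every Noetherian local `ℤ_2`-algebra `A` with finite residue field of characteristic two and its adic topology,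
   every `k` and EVERY alternating matrix `C` over `A` with `k` rows there are a family `ρ` over `A` as above with
   a perfect pairing `J`, and cocycles `l_1, …, l_k` of the decomposition group of `v`, independent for all members,
   such that the Selmer groups of all members `φ : A → B` are the kernels of `φ(C)`.
2. For every discrete valuation ring `O`, a `ℤ_2`-algebra with finite residue field of characteristic two, every `r` and
   all `e_1, …, e_t` there is a representation over `O` as above with `k = r + 2 t` saturated local conditions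
   whose Selmer module with coefficients in `O / ϖ ^ j` is
   `(O / ϖ ^ j) ^ r ⊕ M / ϖ ^ j ⊕ M / ϖ ^ j` for all `j ≥ 1`, and with coefficients in `O` it is free of rank `r`.

So the parity `r ≡ k` of the theorem (the algebraic form of the sign conjecture) and the doubling are
the ONLY restrictions on Selmer groups in this setting: every rank of the right parity occurs for every number `k` of
local conditions, and every function on a family (`k = 2`, `C = (0, P; -P, 0)`) is the function whose zeros are the members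
with a non-trivial Selmer group.

The representations are the sums of copies of the trivial and the cyclotomic character. The local
conditions are combinations of the logarithm of the cyclotomic character and of a Kummer class; they are not the
Bloch–Kato conditions, and so nothing is said about the negation of Q1.

## The proof

Let `ρ = (1 ⊕ χ) ^ k` with the pairing that exchanges the summands, let `κ : G_K → ℤ_2(1)` and `φ : G_K → ℤ_2` be the
cocycles of the library (a Kummer cocycle and the logarithm of the cyclotomic character), for which the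
class of `κ ∪ φ` is a generator of `H²(G, A(1))` over `A`, for every `A`. With `c_ij = C_ij` for `i < j` and `c_ij = 0`
otherwise, let `x_i = φ e_i + ∑ c_ij κ f_j`. Since `κ ∪ φ` is invariant under the conjugation and
anticommutative, `x_i ∪ x_j^c = (c_ij - c_ji) κ ∪ φ`, and `c_ij - c_ji = C_ij`. The
restrictions of the `x_i` to `v` are independent for all members because `φ` is onto on the decomposition group.

The definitions of `Gal`, `Dec`, `cyc`, `Admissible`, `Polarized`, `LocalCocycle`, `GlobalCocycle`, `RestrictsTo`,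
`Orthogonal`, `member` and `at_` are in `SkewMatrixOfFamily.lean`, those of `LocallyIndependent`, `Saturated`,
`FiniteLevels` and `FreeOfRank` in `DoubleSelmerModules.lean` in this folder.
-/

set_option autoImplicit false

namespace Pool.Agent.Results.MP_b4b3cb_nt.EveryAlternatingMatrix

open Matrix IsLocalRing Pool.Agent.Results.MP_b4b3cb_nt.SkewMatrixOfFamily
open Pool.Agent.Results.MP_b4b3cb_nt.DoubleSelmerModules

/-- The matrix `C` computes the Selmer groups of all members `φ : A → B` of the family `ρ` with the local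
conditions `l`: the `φ(l i)` are independent modulo coboundaries, and every local cocycle
`∑ u i • φ(l i) + (coboundary of w)` extends to exactly one cocycle `z` unramified outside `2`, which is orthogonal to
all `φ(l i)` at the conjugate place if and only if `φ(C) u = 0`. -/
def Computes {s : QBar} {A : Type} [CommRing A] [TopologicalSpace A] [Algebra ℤ_[2] A]
    (cj : Gal s → Gal s) {n k : ℕ} (ρ : Gal s →* GL (Fin n) A) (J : Matrix (Fin n) (Fin n) A)
    (ι : Emb 2) (l : Fin k → Dec (s := s) ι → Fin n → A) (C : Matrix (Fin k) (Fin k) A) : Prop :=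
  ∀ (B : Type) [CommRing B] [IsLocalRing B] [IsNoetherianRing B] [TopologicalSpace B]
    [IsTopologicalRing B] [Algebra ℤ_[2] B], IsAdic (maximalIdeal B) → Finite (ResidueField B) →
    ∀ φ : A →ₐ[ℤ_[2]] B, Continuous φ →
      LocallyIndependent (member φ ρ) ι (fun i => at_ φ (l i)) ∧
      ∀ (u : Fin k → B) (w : Fin n → B),
        ∃ z : Gal s → Fin n → B, GlobalCocycle (member φ ρ) z ∧
          RestrictsTo (member φ ρ) ι (fun i => at_ φ (l i)) u w z ∧
          (∀ z', GlobalCocycle (member φ ρ) z' →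
            RestrictsTo (member φ ρ) ι (fun i => at_ φ (l i)) u w z' → z' = z) ∧
          ((∀ i, Orthogonal cj (member φ ρ) (J.map φ) ι (at_ φ (l i)) z) ↔ C.map φ *ᵥ u = 0)

lemma pol_of_id {s : QBar} {A : Type} [CommRing A] [Algebra ℤ_[2] A] {n : ℕ}
    {cj : Gal s → Gal s} {ρ : Gal s →* GL (Fin n) A} {J : Matrix (Fin n) (Fin n) A}
    (hs : J.IsSymm) (hJ : ∀ σ, (ρ σ : Matrix (Fin n) (Fin n) A)ᵀ * J *
      (ρ (cj σ) : Matrix (Fin n) (Fin n) A) = (cyc σ : ℤ_[2]) • J) : Polarized cj ρ J := by
  refine ⟨hs, fun σ x y => ?_⟩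
  rw [Pool.Agent.H11.FM.dot_tr, mulVec_mulVec, mulVec_mulVec, hJ σ, smul_mulVec,
    dotProduct_smul, Algebra.smul_def]

theorem part_one : ∀ d : ℕ, InClass d → ∀ s : QBar, s ^ 2 = -(d : QBar) →
    ∀ c : QBar ≃ₐ[ℚ] QBar, IsConjugation c → ∀ cj : Gal s → Gal s, IsConjBy c cj → ∀ ι : Emb 2,
    ∀ (A : Type) [CommRing A] [IsLocalRing A] [IsNoetherianRing A] [TopologicalSpace A]
      [IsTopologicalRing A] [Algebra ℤ_[2] A],
      IsAdic (maximalIdeal A) → Finite (ResidueField A) → (2 : A) ∈ maximalIdeal A →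
    ∀ (k : ℕ) (C : Matrix (Fin k) (Fin k) A), Cᵀ = -C → (∀ i, C i i = 0) →
      ∃ (n : ℕ) (ρ : Gal s →* GL (Fin n) A) (J : Matrix (Fin n) (Fin n) A)
        (l : Fin k → Dec (s := s) ι → Fin n → A),
        Admissible ρ ∧ Polarized cj ρ J ∧ IsUnit J.det ∧ (∀ i, LocalCocycle ρ ι (l i)) ∧
        Computes cj ρ J ι l C := by
  intro d hd s hs c hc cj hcj ι A _ _ _ _ _ _ hA hfA h2 k C hC hC0
  obtain ⟨n, ρ, J, x, hρ, hJ, hJu, hJρ, hx, hmem⟩ := Pool.Agent.H11.SG.realize (s := s) hs hd
    (χ := fun σ => cyc (s := s) σ) cyc_isCyc hc (cj := cj) hcj hA hfA h2 ι C hC hC0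
  refine ⟨n, ρ, J, fun i (δ : Dec (s := s) ι) => x i (δ : Gal s),
    ⟨hρ.cont, hρ.unipotent, hρ.unramified⟩,
    pol_of_id hJ hJρ, hJu, fun i => ⟨fun δ δ' => (hx i).mul (δ : Gal s) (δ' : Gal s),
      (hx i).cont.comp continuous_subtype_val⟩, ?_⟩
  intro B _ _ _ _ _ _ hB hfB φ hφ
  obtain ⟨h1, h3⟩ := hmem B hB hfB φ hφ
  refine ⟨h1, fun u w => ?_⟩
  obtain ⟨z, ⟨g1, g2, g3⟩, hz, hu, ho⟩ := h3 u w
  refine ⟨z, ⟨g1, g2, g3⟩, hz, fun z' hz' h => hu z' ⟨hz'.mul, hz'.cont, hz'.unramified⟩ h, ?_⟩
  rw [← ho]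
  refine forall_congr' fun i => ?_
  unfold Orthogonal Pool.Agent.H11.FM.OR
  simp only [Algebra.smul_def]
  rfl

/-- a matrix with a given normal form -/
lemma exists_matrix {O : Type} [CommRing O] [IsDomain O] (r t : ℕ) (g : Fin t → O) :
    ∃ (C : Matrix (Fin (r + 2 * t)) (Fin (r + 2 * t)) O)
      (E : (Fin (r + 2 * t) → O) ≃ₗ[O] (Fin t → O × O) × (Fin r → O)),
      Cᵀ = -C ∧ (∀ i, C i i = 0) ∧ ∀ x y, x ⬝ᵥ (C *ᵥ y) =
        ∑ i, g i * (((E x).1 i).1 * ((E y).1 i).2 - ((E x).1 i).2 * ((E y).1 i).1) := by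
  have hfr : Module.finrank O (Fin (r + 2 * t) → O) =
      Module.finrank O ((Fin t → O × O) × (Fin r → O)) := by
    rw [Module.finrank_prod, Module.finrank_fin_fun, Module.finrank_fin_fun,
      Module.finrank_pi_fintype]
    simp
    omega
  obtain ⟨E⟩ := FiniteDimensional.nonempty_linearEquiv_of_finrank_eq hfr
  let β : LinearMap.BilinForm O (Fin (r + 2 * t) → O) := LinearMap.mk₂ O
    (fun x y => ∑ i, g i * (((E x).1 i).1 * ((E y).1 i).2 - ((E x).1 i).2 * ((E y).1 i).1))
    (fun x x' y => by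
      rw [← Finset.sum_add_distrib]
      refine Finset.sum_congr rfl fun i _ => ?_
      rw [map_add, Prod.fst_add, Pi.add_apply, Prod.fst_add, Prod.snd_add]
      ring)
    (fun c x y => by
      rw [smul_eq_mul, Finset.mul_sum]
      refine Finset.sum_congr rfl fun i _ => ?_
      rw [map_smul, Prod.smul_fst, Pi.smul_apply, Prod.smul_fst, Prod.smul_snd, smul_eq_mul,
        smul_eq_mul]
      ring)
    (fun x y y' => by
      rw [← Finset.sum_add_distrib]
      refine Finset.sum_congr rfl fun i _ => ?_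
      rw [map_add, Prod.fst_add, Pi.add_apply, Prod.fst_add, Prod.snd_add]
      ring)
    (fun c x y => by
      rw [smul_eq_mul, Finset.mul_sum]
      refine Finset.sum_congr rfl fun i _ => ?_
      rw [map_smul, Prod.smul_fst, Pi.smul_apply, Prod.smul_fst, Prod.smul_snd, smul_eq_mul,
        smul_eq_mul]
      ring)
  have hβ : ∀ x y, β x y =
      ∑ i, g i * (((E x).1 i).1 * ((E y).1 i).2 - ((E x).1 i).2 * ((E y).1 i).1) :=
    fun x y => rfl
  refine ⟨LinearMap.BilinForm.toMatrix' β, E, ?_, fun i => ?_, fun x y => ?_⟩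
  · ext i j
    rw [transpose_apply, neg_apply, LinearMap.BilinForm.toMatrix'_apply,
      LinearMap.BilinForm.toMatrix'_apply, hβ, hβ, ← Finset.sum_neg_distrib]
    refine Finset.sum_congr rfl fun i _ => ?_
    ring
  · rw [LinearMap.BilinForm.toMatrix'_apply, hβ]
    refine Finset.sum_eq_zero fun i _ => ?_
    ring
  · rw [← hβ, ← Matrix.toBilin'_apply', Matrix.toBilin'_toMatrix']

theorem part_two : ∀ d : ℕ, InClass d → ∀ s : QBar, s ^ 2 = -(d : QBar) →
    ∀ c : QBar ≃ₐ[ℚ] QBar, IsConjugation c → ∀ cj : Gal s → Gal s, IsConjBy c cj → ∀ ι : Emb 2,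
    ∀ (O : Type) [CommRing O] [IsDomain O] [IsDiscreteValuationRing O] [TopologicalSpace O]
        [IsTopologicalRing O] [Algebra ℤ_[2] O],
        IsAdic (maximalIdeal O) → Finite (ResidueField O) → (2 : O) ∈ maximalIdeal O →
      ∀ ϖ : O, Irreducible ϖ → ∀ (r t : ℕ) (e : Fin t → ℕ),
      ∃ (n : ℕ) (ρ : Gal s →* GL (Fin n) O) (J : Matrix (Fin n) (Fin n) O)
        (l : Fin (r + 2 * t) → Dec (s := s) ι → Fin n → O),
        Admissible ρ ∧ Polarized cj ρ J ∧ IsUnit J.det ∧ (∀ i, LocalCocycle ρ ι (l i)) ∧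
        Saturated ρ ι l (AlgHom.id ℤ_[2] O) ϖ ∧
        FiniteLevels cj ρ J ι l (AlgHom.id ℤ_[2] O) ϖ r e ∧
        FreeOfRank cj ρ J ι l (AlgHom.id ℤ_[2] O) r := by
  intro d hd s hs c hc cj hcj ι O _ _ _ _ _ _ hO hfO h2 ϖ hϖ r t e
  obtain ⟨C, E, hC, hC0, hE⟩ := exists_matrix (O := O) r t (fun i => ϖ ^ e i)
  obtain ⟨n, ρ, J, l, hρ, hJ, hJu, hl, hmem⟩ := part_one d hd s hs c hc cj hcj ι O hO hfO h2
    (r + 2 * t) C hC hC0
  obtain ⟨φ, hφd⟩ : ∃ φ, φ = AlgHom.id ℤ_[2] O := ⟨_, rfl⟩
  rw [← hφd]
  have hφ : Continuous φ := by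
    rw [hφd]
    exact continuous_id
  have hmap : ∀ x, φ x = x := fun x => by rw [hφd]; rfl
  have hind : Saturated ρ ι l φ ϖ := by
    intro j hj
    obtain ⟨hloc, had, hfin⟩ := quot_adic hO hfO hϖ hj
    have hcφ : Continuous (level φ ϖ j) := continuous_quot_mk.comp hφ
    exact (hmem _ had hfin (level φ ϖ j) hcφ).1
  have hg0 : ∀ i, ϖ ^ e i ≠ 0 := fun i => pow_ne_zero _ hϖ.ne_zero
  refine ⟨n, ρ, J, l, hρ, hJ, hJu, hl, hind, fun j hj => ?_, ?_⟩
  · obtain ⟨hloc, had, hfin⟩ := quot_adic hO hfO hϖ hj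
    have hcφ : Continuous (level φ ϖ j) := continuous_quot_mk.comp hφ
    obtain ⟨K, hK⟩ : ∃ K : Submodule O (Fin (r + 2 * t) → O ⧸ Ideal.span {ϖ ^ j}), ∀ u, u ∈ K ↔
        (C.map (level φ ϖ j)) *ᵥ u = 0 :=
      ⟨LinearMap.ker ((Matrix.mulVecLin (C.map (level φ ϖ j))).restrictScalars O), fun u => Iff.rfl⟩
    have e1 := selmer_equiv O (cj := cj) (ρ := member (level φ ϖ j) ρ)
      (J := J.map (level φ ϖ j)) (ι := ι) (l := fun i => at_ (level φ ϖ j) (l i))
      (fun a b => hcφ.comp (hρ.cont a b)) (fun p _ ι' hp σ hσ => by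
        show GeneralLinearGroup.map (n := Fin n) (level φ ϖ j : O →+* O ⧸ Ideal.span {ϖ ^ j})
          (ρ σ) = 1
        rw [hρ.unramified p ι' hp σ hσ, map_one]) (hind j hj)
      (fun u w => (hmem _ had hfin (level φ ϖ j) hcφ).2 u w) K hK
    have hK' : ∀ u, u ∈ K ↔ (C.map (Ideal.Quotient.mk (Ideal.span {ϖ ^ j}))) *ᵥ u = 0 := by
      intro u
      rw [hK]
      subst hφd
      exact Iff.rfl
    obtain ⟨e2⟩ := Pool.Agent.H11.SG.ker_equiv hϖ.ne_zero (fun i => Associated.refl (ϖ ^ e i)) hE
      j K hK'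
    exact e1.trans e2
  · obtain ⟨K, hK⟩ : ∃ K : Submodule O (Fin (r + 2 * t) → O), ∀ u, u ∈ K ↔ (C.map φ) *ᵥ u = 0 :=
      ⟨LinearMap.ker (Matrix.mulVecLin (C.map φ)), fun u => Iff.rfl⟩
    have hcont : ∀ i j, Continuous fun σ => (member φ ρ σ : Matrix (Fin n) (Fin n) O) i j :=
      fun a b => hφ.comp (hρ.cont a b)
    have hunr : ∀ (p : ℕ) [Fact p.Prime] (ι : Emb p), p ≠ 2 → ∀ σ ∈ (Inr ι : Set (Gal s)),
        member φ ρ σ = 1 := by
      intro p _ ι' hp σ hσ
      show GeneralLinearGroup.map (n := Fin n) (φ : O →+* O) (ρ σ) = 1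
      rw [hρ.unramified p ι' hp σ hσ, map_one]
    have hker : ∀ u, (C.map φ) *ᵥ u = 0 ↔ (E u).1 = 0 := by
      intro u
      have h1 : C.map φ = C := by
        ext i j
        rw [map_apply, hmap]
      rw [h1]
      exact ker_iff hg0 hE u
    have e1 := selmer_equiv O hcont hunr (hmem O hO hfO φ hφ).1
      (fun u w => (hmem O hO hfO φ hφ).2 u w) K hK
    let e3 : K ≃ₗ[O] (Fin r → O) :=
      { toFun := fun u => (E u.1).2
        map_add' := fun x y => by simp
        map_smul' := fun c x => by simp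
        invFun := fun v => ⟨E.symm (0, v), (hK _).2 ((hker _).2 (by rw [E.apply_symm_apply]))⟩
        left_inv := fun u => by
          apply Subtype.ext
          apply E.injective
          rw [E.apply_symm_apply]
          exact Prod.ext ((hker _).1 ((hK _).1 u.2)).symm rfl
        right_inv := fun v => by
          show (E (E.symm (0, v))).2 = v
          rw [E.apply_symm_apply] }
    exact e1.trans e3

/-- **Every alternating matrix and every doubled module occur.** -/
theorem result : ∀ d : ℕ, InClass d → ∀ s : QBar, s ^ 2 = -(d : QBar) →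
    ∀ c : QBar ≃ₐ[ℚ] QBar, IsConjugation c → ∀ cj : Gal s → Gal s, IsConjBy c cj → ∀ ι : Emb 2,
    -- every alternating matrix over a ring `A` is the matrix of a family over `A`
    (∀ (A : Type) [CommRing A] [IsLocalRing A] [IsNoetherianRing A] [TopologicalSpace A]
      [IsTopologicalRing A] [Algebra ℤ_[2] A],
      IsAdic (maximalIdeal A) → Finite (ResidueField A) → (2 : A) ∈ maximalIdeal A →
      ∀ (k : ℕ) (C : Matrix (Fin k) (Fin k) A), Cᵀ = -C → (∀ i, C i i = 0) →
      ∃ (n : ℕ) (ρ : Gal s →* GL (Fin n) A) (J : Matrix (Fin n) (Fin n) A)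
        (l : Fin k → Dec (s := s) ι → Fin n → A),
        Admissible ρ ∧ Polarized cj ρ J ∧ IsUnit J.det ∧ (∀ i, LocalCocycle ρ ι (l i)) ∧
        Computes cj ρ J ι l C) ∧
    -- all ranks and all exponents occur over a discrete valuation ring `O`
    ∀ (O : Type) [CommRing O] [IsDomain O] [IsDiscreteValuationRing O] [TopologicalSpace O]
        [IsTopologicalRing O] [Algebra ℤ_[2] O],
        IsAdic (maximalIdeal O) → Finite (ResidueField O) → (2 : O) ∈ maximalIdeal O →
      ∀ ϖ : O, Irreducible ϖ → ∀ (r t : ℕ) (e : Fin t → ℕ),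
      ∃ (n : ℕ) (ρ : Gal s →* GL (Fin n) O) (J : Matrix (Fin n) (Fin n) O)
        (l : Fin (r + 2 * t) → Dec (s := s) ι → Fin n → O),
        Admissible ρ ∧ Polarized cj ρ J ∧ IsUnit J.det ∧ (∀ i, LocalCocycle ρ ι (l i)) ∧
        Saturated ρ ι l (AlgHom.id ℤ_[2] O) ϖ ∧
        FiniteLevels cj ρ J ι l (AlgHom.id ℤ_[2] O) ϖ r e ∧
        FreeOfRank cj ρ J ι l (AlgHom.id ℤ_[2] O) r := by
  intro d hd s hs c hc cj hcj ι
  exact ⟨part_one d hd s hs c hc cj hcj ι, part_two d hd s hs c hc cj hcj ι⟩

end Pool.Agent.Results.MP_b4b3cb_nt.EveryAlternatingMatrix
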